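import Pool.Agent.H29.PK.Tet

/-!
# Three points of a convex body over the corners of a triangle
-/

set_option autoImplicit false

namespace Pool.Agent.H29.PK

open MeasureTheory
open scoped ENNReal
open Pool.Agent.H349R2.Tet
open Pool.Agent.TH219.DL

theorem core {J hi hk hj ti tk tj Aij Akj Ajj Aii Akk : ℝ} (hj0 : 0 ≤ hj) (hij : hj ≤ hi)
    (hkj : hj ≤ hk) (hiJ : hi ≤ J) (hkJ : hk ≤ J) (ti0 : 0 ≤ ti) (tk0 : 0 ≤ tk) (tj0 : 0 ≤ tj)
    (hsum : Aij + Akj + Ajj = 1) (ejj : (1 + ti + tk - tj) / 2 ≤ Ajj)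
    (eii : (1 + tj + tk - ti) / 2 ≤ Aii) (ekk : (1 + ti + tj - tk) / 2 ≤ Akk)
    (I1 : (1 - Aij) * hi + Aii * hj ≤ J) (I2 : (1 - Akj) * hk + Akk * hj ≤ J) :
    hi + hk + hj ≤ 5 / 2 * J := by
  by_contra hcon
  push Not at hcon
  have hi0 : 0 ≤ hi := hj0.trans hij
  have hk0 : 0 ≤ hk := hj0.trans hkj
  have hJ0 : 0 ≤ J := hi0.trans hiJ
  have hjJ : J / 2 < hj := by linarith
  have hjp : 0 < hj := by linarith
  have hip : 0 < hi := by linarith
  have hkp : 0 < hk := by linarith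
  have m1 := mul_le_mul_of_nonneg_right I1 hk0
  have m2 := mul_le_mul_of_nonneg_right I2 hi0
  have n1 := mul_le_mul_of_nonneg_right ejj (mul_nonneg hi0 hk0)
  have n2 := mul_le_mul_of_nonneg_right eii (mul_nonneg hj0 hk0)
  have n3 := mul_le_mul_of_nonneg_right ekk (mul_nonneg hj0 hi0)
  have hAjj : Aij + Akj = 1 - Ajj := by linarith
  have k1 : (1 + (1 + ti + tk - tj) / 2) * (hi * hk) + (1 + tj + tk - ti) / 2 * (hj * hk)
      + (1 + ti + tj - tk) / 2 * (hj * hi) ≤ J * (hi + hk) := by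
    have e1 : (1 - Aij) * hi * hk + (1 - Akj) * hk * hi = (1 + Ajj) * (hi * hk) := by
      linear_combination (-(hi * hk)) * hAjj
    nlinarith
  have t1 : 0 ≤ ti * (hi * hk - hj * hk + hj * hi) := by
    apply mul_nonneg ti0
    have := mul_nonneg hk0 (sub_nonneg.2 hij)
    have := mul_nonneg hj0 hi0
    nlinarith
  have t2 : 0 ≤ tk * (hi * hk + hj * hk - hj * hi) := by
    apply mul_nonneg tk0
    have := mul_nonneg hi0 (sub_nonneg.2 hkj)
    have := mul_nonneg hj0 hk0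
    nlinarith
  have t3 : 0 ≤ tj * (-(hi * hk) + hj * hk + hj * hi) := by
    apply mul_nonneg tj0
    have a1 := mul_nonneg hk0 (show 0 ≤ hj - hi / 2 by linarith)
    have a2 := mul_nonneg hi0 (show 0 ≤ hj - hk / 2 by linarith)
    nlinarith
  have k2 : 3 / 2 * (hi * hk) + 1 / 2 * hj * (hi + hk) ≤ J * (hi + hk) := by
    nlinarith
  have k3 : 1 / 2 * (5 / 2 * J - hi - hk) * (hi + hk) < 1 / 2 * hj * (hi + hk) := by
    apply mul_lt_mul_of_pos_right _ (by linarith)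
    linarith
  -- with `x = J - hi`, `y = J - hk`
  have s1 : (J - hi) + (J - hk) ≤ J / 3 := by linarith
  have s2 : 0 ≤ ((J - hi) + (J - hk)) * (J / 4 - ((J - hi) + (J - hk)) / 2) := by
    apply mul_nonneg (by linarith)
    linarith
  have s3 : 0 ≤ (J - hi) * (J - hk) := mul_nonneg (by linarith) (by linarith)
  nlinarith

theorem core3 {J h k l tA tB tC pA pB pC qA qB qC rA rB rC : ℝ} (_hJ0 : 0 ≤ J)
    (hh : h ≤ J) (hk : k ≤ J) (hl : l ≤ J) (tA0 : 0 ≤ tA) (tB0 : 0 ≤ tB) (tC0 : 0 ≤ tC)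
    (sp : pA + pB + pC = 1) (sq : qA + qB + qC = 1) (sr : rA + rB + rC = 1)
    (eA : (1 + tB + tC - tA) / 2 ≤ pA) (eB : (1 + tA + tC - tB) / 2 ≤ qB)
    (eC : (1 + tA + tB - tC) / 2 ≤ rC)
    (PQ : 0 ≤ h → 0 ≤ k → (1 - qA) * h + pA * k ≤ J)
    (PR : 0 ≤ h → 0 ≤ l → (1 - rA) * h + pA * l ≤ J)
    (QP : 0 ≤ k → 0 ≤ h → (1 - pB) * k + qB * h ≤ J)
    (QR : 0 ≤ k → 0 ≤ l → (1 - rB) * k + qB * l ≤ J)
    (RP : 0 ≤ l → 0 ≤ h → (1 - pC) * l + rC * h ≤ J)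
    (RQ : 0 ≤ l → 0 ≤ k → (1 - qC) * l + rC * k ≤ J) :
    h + k + l ≤ 5 / 2 * J := by
  rcases le_or_gt h 0 with h0 | h0
  · linarith
  rcases le_or_gt k 0 with k0 | k0
  · linarith
  rcases le_or_gt l 0 with l0 | l0
  · linarith
  have PQ' := PQ h0.le k0.le
  have PR' := PR h0.le l0.le
  have QP' := QP k0.le h0.le
  have QR' := QR k0.le l0.le
  have RP' := RP l0.le h0.le
  have RQ' := RQ l0.le k0.le
  rcases le_total h k with hk1 | hk1
  · rcases le_total h l with hl1 | hl1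
    · -- `h` is the least
      have := core (J := J) (hi := k) (hk := l) (hj := h) (ti := tB) (tk := tC) (tj := tA)
        (Aij := pB) (Akj := pC) (Ajj := pA) (Aii := qB) (Akk := rC) h0.le hk1 hl1 hk hl
        tB0 tC0 tA0 (by linarith) (by linarith) (by linarith) (by linarith) QP' RP'
      linarith
    · -- `l` is the least
      have := core (J := J) (hi := h) (hk := k) (hj := l) (ti := tA) (tk := tB) (tj := tC)
        (Aij := rA) (Akj := rB) (Ajj := rC) (Aii := pA) (Akk := qB) l0.le hl1 (hl1.trans hk1) hh hk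
        tA0 tB0 tC0 (by linarith) (by linarith) (by linarith) (by linarith) PR' QR'
      linarith
  · rcases le_total k l with hl1 | hl1
    · -- `k` is the least
      have := core (J := J) (hi := h) (hk := l) (hj := k) (ti := tA) (tk := tC) (tj := tB)
        (Aij := qA) (Akj := qC) (Ajj := qB) (Aii := pA) (Akk := rC) k0.le hk1 hl1 hh hl
        tA0 tC0 tB0 (by linarith) (by linarith) (by linarith) (by linarith) PQ' RQ'
      linarith
    · -- `l` is the least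
      have := core (J := J) (hi := h) (hk := k) (hj := l) (ti := tA) (tk := tB) (tj := tC)
        (Aij := rA) (Akj := rB) (Ajj := rC) (Aii := pA) (Akk := qB) l0.le (hl1.trans hk1) hl1 hh hk
        tA0 tB0 tC0 (by linarith) (by linarith) (by linarith) (by linarith) PR' QR'
      linarith

/-- a point of the body over the horizontal triangle -/
theorem height {K : Set V} (hK : Convex ℝ K) {e : ℝ} (he : |e| = 1) {ν : ℝ} (hν0 : 0 ≤ ν)
    (hν : volume (K ∩ {x | 0 < e * x 0}) ≤ ENNReal.ofReal ν)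
    (h1 : (![0, 0, 0] : V) ∈ K) (h2 : (![0, 1, 0] : V) ∈ K) (h3 : (![0, 0, 1] : V) ∈ K)
    {P : V} (hP : P ∈ K) : e * P 0 ≤ 6 * ν := by
  refine one_pt hK hν0 hν h1 h2 h3 hP rfl rfl rfl ?_
  rw [abs_mul, he, one_mul]
  congr 1
  simp [Dv]

/-- three points of the body over the corners -/
theorem corner {K : Set V} (hK : Convex ℝ K) {e : ℝ} (he : |e| = 1) {ν : ℝ} (hν0 : 0 ≤ ν)
    (hν : volume (K ∩ {x | 0 < e * x 0}) ≤ ENNReal.ofReal ν)
    (h1 : (![0, 0, 0] : V) ∈ K) (h2 : (![0, 1, 0] : V) ∈ K) (h3 : (![0, 0, 1] : V) ∈ K)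
    {tA tB tC : ℝ} (tA0 : 0 ≤ tA) (tB0 : 0 ≤ tB) (tC0 : 0 ≤ tC)
    {P Q R : V} (hP : P ∈ K) (hQ : Q ∈ K) (hR : R ∈ K)
    (eA : (1 + tB + tC - tA) / 2 ≤ 1 - P 1 - P 2) (eB : (1 + tA + tC - tB) / 2 ≤ Q 1)
    (eC : (1 + tA + tB - tC) / 2 ≤ R 2) :
    e * P 0 + e * Q 0 + e * R 0 ≤ 15 * ν := by
  have habs : ∀ x : ℝ, |x| = |e * x| := fun x => by rw [abs_mul, he, one_mul]
  have IA : ∀ X ∈ K, ∀ Y ∈ K, 0 ≤ e * X 0 → 0 ≤ e * Y 0 →
      (1 - (1 - Y 1 - Y 2)) * (e * X 0) + (1 - X 1 - X 2) * (e * Y 0) ≤ 6 * ν := by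
    intro X hX Y hY hX0 hY0
    have := two_pt hK hν0 hν (c0 := 1) (c1 := -1) (c2 := -1) h1 h2 h3 hX hY rfl rfl rfl
      (by simp) (by simp) (by simp)
      (by rw [← habs]; congr 1; simp [Dv])
      (by
        have e1 : Dv X Y ![0, 1, 0] ![0, 0, 1]
            = -((1 + -1 * X 1 + -1 * X 2) * Y 0 - (1 + -1 * Y 1 + -1 * Y 2) * X 0) := by
          simp [Dv]; ring
        have e2 : (1 + -1 * X 1 + -1 * X 2) * (e * Y 0) - (1 + -1 * Y 1 + -1 * Y 2) * (e * X 0)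
            = e * ((1 + -1 * X 1 + -1 * X 2) * Y 0 - (1 + -1 * Y 1 + -1 * Y 2) * X 0) := by ring
        rw [e1, e2, ← habs, abs_neg]) hX0 hY0
    linarith
  have IB : ∀ X ∈ K, ∀ Y ∈ K, 0 ≤ e * X 0 → 0 ≤ e * Y 0 →
      (1 - Y 1) * (e * X 0) + X 1 * (e * Y 0) ≤ 6 * ν := by
    intro X hX Y hY hX0 hY0
    have := two_pt hK hν0 hν (c0 := 0) (c1 := 1) (c2 := 0) h2 h1 h3 hX hY rfl rfl rfl
      (by simp) (by simp) (by simp)
      (by rw [← habs, ← abs_neg]; congr 1; simp [Dv])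
      (by
        have e1 : Dv X Y ![0, 0, 0] ![0, 0, 1]
            = ((0 + 1 * X 1 + 0 * X 2) * Y 0 - (0 + 1 * Y 1 + 0 * Y 2) * X 0) := by
          simp [Dv]; ring
        have e2 : (0 + 1 * X 1 + 0 * X 2) * (e * Y 0) - (0 + 1 * Y 1 + 0 * Y 2) * (e * X 0)
            = e * ((0 + 1 * X 1 + 0 * X 2) * Y 0 - (0 + 1 * Y 1 + 0 * Y 2) * X 0) := by ring
        rw [e1, e2, ← habs]) hX0 hY0
    linarith
  have IC : ∀ X ∈ K, ∀ Y ∈ K, 0 ≤ e * X 0 → 0 ≤ e * Y 0 →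
      (1 - Y 2) * (e * X 0) + X 2 * (e * Y 0) ≤ 6 * ν := by
    intro X hX Y hY hX0 hY0
    have := two_pt hK hν0 hν (c0 := 0) (c1 := 0) (c2 := 1) h3 h1 h2 hX hY rfl rfl rfl
      (by simp) (by simp) (by simp)
      (by rw [← habs]; congr 1; simp [Dv])
      (by
        have e1 : Dv X Y ![0, 0, 0] ![0, 1, 0]
            = -((0 + 0 * X 1 + 1 * X 2) * Y 0 - (0 + 0 * Y 1 + 1 * Y 2) * X 0) := by
          simp [Dv]; ring
        have e2 : (0 + 0 * X 1 + 1 * X 2) * (e * Y 0) - (0 + 0 * Y 1 + 1 * Y 2) * (e * X 0)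
            = e * ((0 + 0 * X 1 + 1 * X 2) * Y 0 - (0 + 0 * Y 1 + 1 * Y 2) * X 0) := by ring
        rw [e1, e2, ← habs, abs_neg]) hX0 hY0
    linarith
  have H := fun X hX => height hK he hν0 hν h1 h2 h3 (P := X) hX
  have := core3 (J := 6 * ν) (h := e * P 0) (k := e * Q 0) (l := e * R 0)
    (pA := 1 - P 1 - P 2) (pB := P 1) (pC := P 2) (qA := 1 - Q 1 - Q 2) (qB := Q 1) (qC := Q 2)
    (rA := 1 - R 1 - R 2) (rB := R 1) (rC := R 2) (by linarith) (H P hP) (H Q hQ) (H R hR)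
    tA0 tB0 tC0 (by ring) (by ring) (by ring) eA eB eC
    (IA P hP Q hQ) (IA P hP R hR) (IB Q hQ P hP) (IB Q hQ R hR) (IC R hR P hP) (IC R hR Q hQ)
  linarith

end Pool.Agent.H29.PK
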