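import Pool.Graph.R_seed8.TH219.DL.Cols

/-!
# Fáry's planar lattice and the inscribed triangle of maximal area
-/

set_option autoImplicit false

namespace Pool.Agent.H29.PK

open MeasureTheory
open Pool.Agent.TH219.DL

/-- Fáry's lattice, together with the inscribed triangle of maximal area -/
theorem fary' {P : Set W} (hP : Convex ℝ P) (hc : IsCompact P) (hne : (interior P).Nonempty) :
    ∃ A ∈ P, ∃ B ∈ P, ∃ C ∈ P, ∃ α β γ : ℝ, 0 ≤ α ∧ 0 ≤ β ∧ 0 ≤ γ ∧ 0 < Dt A B C ∧
      (∀ X ∈ P, -(α * Dt A B C) ≤ Dt X B C) ∧ (∀ X ∈ P, -(β * Dt A B C) ≤ Dt A X C) ∧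
      (∀ X ∈ P, -(γ * Dt A B C) ≤ Dt A B X) ∧
      ∃ u w : W, 0 < u 0 * w 1 - u 1 * w 0 ∧
      ENNReal.ofReal (u 0 * w 1 - u 1 * w 0) ≤ ENNReal.ofReal (3 / 2) * volume P ∧
      (0.0313 ≤ α + β + γ →
        ENNReal.ofReal (u 0 * w 1 - u 1 * w 0) ≤ ENNReal.ofReal 1.485 * volume P) ∧
      Adm2 P u w := by
  obtain ⟨x0, hx0⟩ := hne
  have hPne : P.Nonempty := ⟨x0, interior_subset hx0⟩
  obtain ⟨T, hT, hTm⟩ := (hc.prod (hc.prod hc)).exists_isMaxOn (hPne.prod (hPne.prod hPne))
    (f := fun T : W × W × W => Dt T.1 T.2.1 T.2.2)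
    (Dt_cont continuous_fst (continuous_fst.comp continuous_snd)
      (continuous_snd.comp continuous_snd)).continuousOn
  obtain ⟨A, B, C⟩ := T
  obtain ⟨hA, hB, hC⟩ := hT
  simp only at hA hB hC
  have hmax : ∀ X ∈ P, ∀ Y ∈ P, ∀ Z ∈ P, Dt X Y Z ≤ Dt A B C := fun X hX Y hY Z hZ =>
    hTm (show (X, Y, Z) ∈ P ×ˢ P ×ˢ P from ⟨hX, hY, hZ⟩)
  clear hTm
  set M := Dt A B C with hMdef
  have hM : 0 < M := by
    obtain ⟨ε, hε, hball⟩ := Metric.isOpen_iff.1 isOpen_interior x0 hx0
    have k1 : x0 + ![ε / 2, 0] ∈ P := interior_subset (hball (by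
      rw [Metric.mem_ball, dist_eq_norm, add_sub_cancel_left, pi_norm_lt_iff hε]
      intro i; fin_cases i
      · simp [abs_of_pos hε]; linarith
      · simpa using hε))
    have k2 : x0 + ![0, ε / 2] ∈ P := interior_subset (hball (by
      rw [Metric.mem_ball, dist_eq_norm, add_sub_cancel_left, pi_norm_lt_iff hε]
      intro i; fin_cases i
      · simpa using hε
      · simp [abs_of_pos hε]; linarith))
    have := hmax x0 (interior_subset hx0) _ k1 _ k2
    have e : Dt x0 (x0 + ![ε / 2, 0]) (x0 + ![0, ε / 2]) = ε ^ 2 / 4 := by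
      simp [Dt]; ring
    rw [e] at this
    have : 0 < ε ^ 2 / 4 := by positivity
    linarith
  obtain ⟨XA, hXA, hXAm⟩ := hc.exists_isMinOn hPne (f := fun X => Dt X B C)
    (Dt_cont continuous_id continuous_const continuous_const).continuousOn
  obtain ⟨XB, hXB, hXBm⟩ := hc.exists_isMinOn hPne (f := fun X => Dt A X C)
    (Dt_cont continuous_const continuous_id continuous_const).continuousOn
  obtain ⟨XC, hXC, hXCm⟩ := hc.exists_isMinOn hPne (f := fun X => Dt A B X)
    (Dt_cont continuous_const continuous_const continuous_id).continuousOn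
  have hmA : ∀ X ∈ P, Dt XA B C ≤ Dt X B C := fun X hX => hXAm hX
  have hmB : ∀ X ∈ P, Dt A XB C ≤ Dt A X C := fun X hX => hXBm hX
  have hmC : ∀ X ∈ P, Dt A B XC ≤ Dt A B X := fun X hX => hXCm hX
  clear hXAm hXBm hXCm
  -- normalised widths
  set α := -Dt XA B C / M with hα
  set β := -Dt A XB C / M with hβ
  set γ := -Dt A B XC / M with hγ
  have aα : Dt XA B C = -(α * M) := by rw [hα]; field_simp
  have aβ : Dt A XB C = -(β * M) := by rw [hβ]; field_simp
  have aγ : Dt A B XC = -(γ * M) := by rw [hγ]; field_simp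
  have α0 : 0 ≤ α := by
    have h := hmA B hB
    have e : Dt B B C = 0 := by unfold Dt; ring
    rw [e] at h
    exact div_nonneg (by linarith) hM.le
  have β0 : 0 ≤ β := by
    have h := hmB A hA
    have e : Dt A A C = 0 := by unfold Dt; ring
    rw [e] at h
    exact div_nonneg (by linarith) hM.le
  have γ0 : 0 ≤ γ := by
    have h := hmC A hA
    have e : Dt A B A = 0 := by unfold Dt; ring
    rw [e] at h
    exact div_nonneg (by linarith) hM.le
  have α1 : α ≤ 1 := by
    have h := hmax XA hXA C hC B hB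
    have e : Dt XA C B = - Dt XA B C := by unfold Dt; ring
    rw [hα, div_le_one hM]; linarith
  have β1 : β ≤ 1 := by
    have h := hmax C hC XB hXB A hA
    have e : Dt C XB A = - Dt A XB C := by unfold Dt; ring
    rw [hβ, div_le_one hM]; linarith
  have γ1 : γ ≤ 1 := by
    have h := hmax B hB A hA XC hXC
    have e : Dt B A XC = - Dt A B XC := by unfold Dt; ring
    rw [hγ, div_le_one hM]; linarith
  have hvol := area_low hP hA hB hC hXA hXB hXC aα aβ aγ (by positivity) (by positivity)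
    (by positivity) hM (fun X hX => hmax X hX B hB C hC) (fun X hX => hmax A hA X hX C hC)
    (fun X hX => hmax A hA B hB X hX)
  rw [← hMdef] at hvol
  set s := (1 + α + β - γ) / 2 with hs
  have s0 : 0 ≤ s := by rw [hs]; linarith
  have s1 : 0 ≤ (1 + α) - s := by rw [hs]; linarith
  have s2 : 0 ≤ (1 + β) - s := by rw [hs]; linarith
  -- the triangle `XA XB A` is not larger than `A B C`
  have hαβ : 2 * (α * β) ≤ 1 := by
    have h := hmax A hA XA hXA XB hXB
    have e : M * Dt A XA XB = Dt A XA C * Dt A B XB - Dt A B XA * Dt A XB C := by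
      rw [hMdef]; unfold Dt; ring
    have l1 : Dt A B XA ≤ M := hmax A hA B hB XA hXA
    have l2 : Dt A B XB ≤ M := hmax A hA B hB XB hXB
    have l3 : Dt A XA C ≤ M := hmax A hA XA hXA C hC
    have l4 : Dt XB B C ≤ M := hmax XB hXB B hB C hC
    have s1 : Dt XA B C + Dt A XA C + Dt A B XA = M := Dt_sum A B C XA
    have s2 : Dt XB B C + Dt A XB C + Dt A B XB = M := Dt_sum A B C XB
    rw [aα] at s1
    rw [aβ] at s2
    have g1 : α * M ≤ Dt A XA C := by linarith
    have g2 : α * M ≤ Dt A B XA := by linarith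
    have g3 : β * M ≤ Dt A B XB := by linarith
    have g4 : 0 ≤ α * M := mul_nonneg α0 hM.le
    have g5 : 0 ≤ β * M := mul_nonneg β0 hM.le
    have g6 : (α * M) * (β * M) ≤ Dt A XA C * Dt A B XB := mul_le_mul g1 g3 g5 (g4.trans g1)
    have g7 : (α * M) * (β * M) ≤ Dt A B XA * (β * M) := mul_le_mul_of_nonneg_right g2 g5
    rw [aβ] at e
    have g8 : 2 * (α * β) * M ^ 2 ≤ 1 * M ^ 2 := by nlinarith
    exact le_of_mul_le_mul_right g8 (by positivity)
  have hbA : ∀ X ∈ P, -(α * M) ≤ Dt X B C := fun X hX => by rw [← aα]; exact hmA X hX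
  have hbB : ∀ X ∈ P, -(β * M) ≤ Dt A X C := fun X hX => by rw [← aβ]; exact hmB X hX
  have hbC : ∀ X ∈ P, -(γ * M) ≤ Dt A B X := fun X hX => by rw [← aγ]; exact hmC X hX
  refine ⟨A, hA, B, hB, C, hC, α, β, γ, α0, β0, γ0, hM, hbA, hbB, hbC,
    fun i => (1 + α) * (A i - C i) - s * (B i - C i),
    fun i => -s * (A i - C i) + (1 + β) * (B i - C i), ?_, ?_, ?_, ?_⟩
  · have e : ((1 + α) * (A 0 - C 0) - s * (B 0 - C 0)) * (-s * (A 1 - C 1) + (1 + β) * (B 1 - C 1))
        - ((1 + α) * (A 1 - C 1) - s * (B 1 - C 1)) * (-s * (A 0 - C 0) + (1 + β) * (B 0 - C 0))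
        = M * ((1 + α) * (1 + β) - s ^ 2) := by
      rw [hMdef]; unfold Dt; ring
    simp only
    rw [e]
    apply mul_pos hM
    rw [hs]
    nlinarith [mul_nonneg α0 β0, mul_nonneg α0 γ0, mul_nonneg β0 γ0]
  · have e : ((1 + α) * (A 0 - C 0) - s * (B 0 - C 0)) * (-s * (A 1 - C 1) + (1 + β) * (B 1 - C 1))
        - ((1 + α) * (A 1 - C 1) - s * (B 1 - C 1)) * (-s * (A 0 - C 0) + (1 + β) * (B 0 - C 0))
        = M * ((1 + α) * (1 + β) - s ^ 2) := by
      rw [hMdef]; unfold Dt; ring
    simp only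
    rw [e]
    calc ENNReal.ofReal (M * ((1 + α) * (1 + β) - s ^ 2))
        ≤ ENNReal.ofReal (3 / 2 * ((M + α * M + β * M + γ * M) / 2)) := by
          apply ENNReal.ofReal_le_ofReal
          have : (1 + α) * (1 + β) - s ^ 2 ≤ 3 / 4 * (1 + α + β + γ) := by
            rw [hs]
            nlinarith [mul_nonneg α0 β0, mul_nonneg α0 γ0, mul_nonneg β0 γ0,
              mul_nonneg α0 (sub_nonneg.2 β1), mul_nonneg β0 (sub_nonneg.2 γ1),
              mul_nonneg γ0 (sub_nonneg.2 α1), sq_nonneg (α - β), sq_nonneg (α - γ),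
              sq_nonneg (β - γ)]
          nlinarith
      _ = ENNReal.ofReal (3 / 2) * ENNReal.ofReal ((M + α * M + β * M + γ * M) / 2) :=
          ENNReal.ofReal_mul (by norm_num)
      _ ≤ _ := by gcongr
  · intro hτ
    have e : ((1 + α) * (A 0 - C 0) - s * (B 0 - C 0)) * (-s * (A 1 - C 1) + (1 + β) * (B 1 - C 1))
        - ((1 + α) * (A 1 - C 1) - s * (B 1 - C 1)) * (-s * (A 0 - C 0) + (1 + β) * (B 0 - C 0))
        = M * ((1 + α) * (1 + β) - s ^ 2) := by
      rw [hMdef]; unfold Dt; ring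
    simp only
    rw [e]
    calc ENNReal.ofReal (M * ((1 + α) * (1 + β) - s ^ 2))
        ≤ ENNReal.ofReal (1.485 * ((M + α * M + β * M + γ * M) / 2)) := by
          apply ENNReal.ofReal_le_ofReal
          have h1 : (1 + α) * (1 + β) - s ^ 2 ≤ (3 + (α + β + γ)) ^ 2 / 12 := by
            rw [hs]
            nlinarith [sq_nonneg (α - β), sq_nonneg (α - γ), sq_nonneg (β - γ)]
          have h2 : (3 + (α + β + γ)) ^ 2 / 12 ≤ 1.485 / 2 * (1 + α + β + γ) := by
            have h3 : α + β + γ ≤ 2.87 := by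
              by_contra hcon
              push Not at hcon
              have k1 : 0.87 ≤ α := by linarith
              have k2 : 0.87 ≤ β := by linarith
              nlinarith
            nlinarith [mul_nonneg (sub_nonneg.2 hτ) (sub_nonneg.2 h3)]
          have h4 := mul_le_mul_of_nonneg_left (h1.trans h2) hM.le
          linarith
      _ = ENNReal.ofReal 1.485 * ENNReal.ofReal ((M + α * M + β * M + γ * M) / 2) :=
          ENNReal.ofReal_mul (by norm_num)
      _ ≤ _ := by gcongr
  · -- the functionals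
    have fA : ∀ x ∈ P, ∀ y ∈ P, (B 1 - C 1) * (x 0 - y 0) + -(B 0 - C 0) * (x 1 - y 1)
        ≤ (1 + α) * M := by
      intro x hx y hy
      have h1 := hmax x hx B hB C hC
      have h2 := hmA y hy
      have e : (B 1 - C 1) * (x 0 - y 0) + -(B 0 - C 0) * (x 1 - y 1) = Dt x B C - Dt y B C := by
        unfold Dt; ring
      rw [e]; linarith
    have fB : ∀ x ∈ P, ∀ y ∈ P, (C 1 - A 1) * (x 0 - y 0) + -(C 0 - A 0) * (x 1 - y 1)
        ≤ (1 + β) * M := by
      intro x hx y hy
      have h1 := hmax A hA x hx C hC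
      have h2 := hmB y hy
      have e : (C 1 - A 1) * (x 0 - y 0) + -(C 0 - A 0) * (x 1 - y 1) = Dt A x C - Dt A y C := by
        unfold Dt; ring
      rw [e]; linarith
    have fC : ∀ x ∈ P, ∀ y ∈ P, (A 1 - B 1) * (x 0 - y 0) + -(A 0 - B 0) * (x 1 - y 1)
        ≤ (1 + γ) * M := by
      intro x hx y hy
      have h1 := hmax A hA B hB x hx
      have h2 := hmC y hy
      have e : (A 1 - B 1) * (x 0 - y 0) + -(A 0 - B 0) * (x 1 - y 1) = Dt A B x - Dt A B y := by
        unfold Dt; ring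
      rw [e]; linarith
    have nA : B 1 - C 1 ≠ 0 ∨ -(B 0 - C 0) ≠ 0 := by
      by_contra hcon
      push Not at hcon
      have : M = 0 := by
        rw [hMdef]
        have e : Dt A B C = (A 0 - C 0) * (B 1 - C 1) + (A 1 - C 1) * -(B 0 - C 0) := by
          unfold Dt; ring
        rw [e, hcon.1, hcon.2]; ring
      linarith
    have nB : C 1 - A 1 ≠ 0 ∨ -(C 0 - A 0) ≠ 0 := by
      by_contra hcon
      push Not at hcon
      have : M = 0 := by
        rw [hMdef]
        have e : Dt A B C = (B 0 - A 0) * (C 1 - A 1) + (B 1 - A 1) * -(C 0 - A 0) := by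
          unfold Dt; ring
        rw [e, hcon.1, hcon.2]; ring
      linarith
    have nC : A 1 - B 1 ≠ 0 ∨ -(A 0 - B 0) ≠ 0 := by
      by_contra hcon
      push Not at hcon
      have : M = 0 := by
        rw [hMdef]
        have e : Dt A B C = (C 0 - A 0) * (A 1 - B 1) + (C 1 - A 1) * -(A 0 - B 0) := by
          unfold Dt; ring
        rw [e, hcon.1, hcon.2]; ring
      linarith
    have nneg : ∀ {p q : ℝ}, (p ≠ 0 ∨ q ≠ 0) → (-p ≠ 0 ∨ -q ≠ 0) := by
      intro p q h
      rcases h with h | h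
      · exact Or.inl (neg_ne_zero.2 h)
      · exact Or.inr (neg_ne_zero.2 h)
    intro m n hmn
    simp only
    have eA : ∀ m n : ℝ, (B 1 - C 1) * (m * ((1 + α) * (A 0 - C 0) - s * (B 0 - C 0))
          + n * (-s * (A 0 - C 0) + (1 + β) * (B 0 - C 0)))
        + -(B 0 - C 0) * (m * ((1 + α) * (A 1 - C 1) - s * (B 1 - C 1))
          + n * (-s * (A 1 - C 1) + (1 + β) * (B 1 - C 1))) = (m * (1 + α) - n * s) * M := by
      intro m n
      rw [hMdef]; unfold Dt; ring
    have eB : ∀ m n : ℝ, (C 1 - A 1) * (m * ((1 + α) * (A 0 - C 0) - s * (B 0 - C 0))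
          + n * (-s * (A 0 - C 0) + (1 + β) * (B 0 - C 0)))
        + -(C 0 - A 0) * (m * ((1 + α) * (A 1 - C 1) - s * (B 1 - C 1))
          + n * (-s * (A 1 - C 1) + (1 + β) * (B 1 - C 1))) = (n * (1 + β) - m * s) * M := by
      intro m n
      rw [hMdef]; unfold Dt; ring
    have eC : ∀ m n : ℝ, (A 1 - B 1) * (m * ((1 + α) * (A 0 - C 0) - s * (B 0 - C 0))
          + n * (-s * (A 0 - C 0) + (1 + β) * (B 0 - C 0)))
        + -(A 0 - B 0) * (m * ((1 + α) * (A 1 - C 1) - s * (B 1 - C 1))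
          + n * (-s * (A 1 - C 1) + (1 + β) * (B 1 - C 1)))
        = -((m * ((1 + α) - s) + n * ((1 + β) - s)) * M) := by
      intro m n
      rw [hMdef]; unfold Dt; ring
    have hγs : (1 + α) - s + ((1 + β) - s) = 1 + γ := by rw [hs]; ring
    rcases lt_trichotomy m 0 with hm | hm | hm
    · have hm' : (m : ℝ) ≤ -1 := by exact_mod_cast (by omega : m ≤ -1)
      rcases lt_or_ge n 0 with hn | hn
      · have hn' : (n : ℝ) ≤ -1 := by exact_mod_cast (by omega : n ≤ -1)
        refine ⟨_, _, nC, fun x hx y hy => (fC x hx y hy).trans ?_⟩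
        rw [eC]
        have h1 : (1 : ℝ) * ((1 + α) - s) ≤ -m * ((1 + α) - s) :=
          mul_le_mul_of_nonneg_right (by linarith) s1
        have h2 : (1 : ℝ) * ((1 + β) - s) ≤ -n * ((1 + β) - s) :=
          mul_le_mul_of_nonneg_right (by linarith) s2
        have h3 : 1 + γ ≤ -(m * ((1 + α) - s) + n * ((1 + β) - s)) := by linarith
        calc (1 + γ) * M ≤ -(m * ((1 + α) - s) + n * ((1 + β) - s)) * M :=
              mul_le_mul_of_nonneg_right h3 hM.le
          _ = _ := by ring
      · have hn' : (0 : ℝ) ≤ n := by exact_mod_cast hn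
        refine ⟨_, _, nneg nA, fun x hx y hy => ?_⟩
        have h0 := fA y hy x hx
        have h1 : (1 : ℝ) * (1 + α) ≤ -m * (1 + α) :=
          mul_le_mul_of_nonneg_right (by linarith) (by linarith)
        have h2 : 0 ≤ n * s := mul_nonneg hn' s0
        have h3 : (1 + α) * M ≤ -(m * (1 + α) - n * s) * M :=
          mul_le_mul_of_nonneg_right (by linarith) hM.le
        have h4 := eA m n
        linarith [h0, h3, h4]
    · subst hm
      have hn : n ≠ 0 := by
        rcases hmn with h | h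
        · exact absurd rfl h
        · exact h
      rcases lt_or_gt_of_ne hn with hn | hn
      · have hn' : (n : ℝ) ≤ -1 := by exact_mod_cast (by omega : n ≤ -1)
        refine ⟨_, _, nneg nB, fun x hx y hy => ?_⟩
        have h0 := fB y hy x hx
        have h1 : (1 : ℝ) * (1 + β) ≤ -n * (1 + β) :=
          mul_le_mul_of_nonneg_right (by linarith) (by linarith)
        have h3 : (1 + β) * M ≤ -(n * (1 + β) - ((0 : ℤ) : ℝ) * s) * M :=
          mul_le_mul_of_nonneg_right (by push_cast; linarith) hM.le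
        have h4 := eB ((0 : ℤ) : ℝ) n
        linarith [h0, h3, h4]
      · have hn' : (1 : ℝ) ≤ n := by exact_mod_cast (by omega : 1 ≤ n)
        refine ⟨_, _, nB, fun x hx y hy => (fB x hx y hy).trans ?_⟩
        rw [eB]
        apply mul_le_mul_of_nonneg_right _ hM.le
        have h1 : (1 : ℝ) * (1 + β) ≤ n * (1 + β) :=
          mul_le_mul_of_nonneg_right hn' (by linarith)
        push_cast
        linarith
    · have hm' : (1 : ℝ) ≤ m := by exact_mod_cast (by omega : 1 ≤ m)
      rcases lt_or_ge 0 n with hn | hn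
      · have hn' : (1 : ℝ) ≤ n := by exact_mod_cast (by omega : 1 ≤ n)
        refine ⟨_, _, nneg nC, fun x hx y hy => ?_⟩
        have h0 := fC y hy x hx
        have h1 : (1 : ℝ) * ((1 + α) - s) ≤ m * ((1 + α) - s) :=
          mul_le_mul_of_nonneg_right hm' s1
        have h2 : (1 : ℝ) * ((1 + β) - s) ≤ n * ((1 + β) - s) :=
          mul_le_mul_of_nonneg_right hn' s2
        have h3 : (1 + γ) * M ≤ (m * ((1 + α) - s) + n * ((1 + β) - s)) * M :=
          mul_le_mul_of_nonneg_right (by linarith) hM.le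
        have h4 := eC m n
        linarith [h0, h3, h4]
      · have hn' : (n : ℝ) ≤ 0 := by exact_mod_cast hn
        refine ⟨_, _, nA, fun x hx y hy => (fA x hx y hy).trans ?_⟩
        rw [eA]
        apply mul_le_mul_of_nonneg_right _ hM.le
        have h1 : (1 : ℝ) * (1 + α) ≤ m * (1 + α) :=
          mul_le_mul_of_nonneg_right hm' (by linarith)
        have h2 : 0 ≤ -n * s := mul_nonneg (by linarith) s0
        linarith

end Pool.Agent.H29.PK
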