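import Pool.Agent.H29.PK.Near

/-!
# Affine normalisation
-/

set_option autoImplicit false

namespace Pool.Agent.H29.PK

open MeasureTheory
open scoped ENNReal
open Pool.Agent.H349R2.Tet
open Pool.Agent.TH219.DL

theorem transfer {K : Set V} (L : V ≃ₗ[ℝ] V) (t : V) {c : ℝ≥0∞}
    (h : ∃ b : Fin 3 → V, Packs ((fun x => L x + t) '' K) b ∧
      c * ENNReal.ofReal |dt b| ≤ volume ((fun x => L x + t) '' K)) :
    ∃ b : Fin 3 → V, Packs K b ∧ c * ENNReal.ofReal |dt b| ≤ volume K := by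
  obtain ⟨b, hb1, hb2⟩ := h
  set b' : Fin 3 → V := fun i => L.symm (b i) with hb'
  have hbb : (fun i => L (b' i)) = b := by
    funext i
    simp [hb']
  have hpk : Packs K b' := by
    rw [← packs_image K L t b', hbb]
    exact hb1
  have hb0 : dt b ≠ 0 := ((packs_iff _ _).1 hb1).1
  have hb0' : dt b' ≠ 0 := ((packs_iff _ _).1 hpk).1
  refine ⟨b', hpk, ?_⟩
  have hr := ratio_image K L t b' hb0'
  rw [hbb] at hr
  rw [← ENNReal.le_div_iff_mul_le (Or.inl (by
    rw [ne_eq, ENNReal.ofReal_eq_zero, not_le]; exact abs_pos.2 hb0'))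
    (Or.inl ENNReal.ofReal_ne_top), ← hr]
  rw [ENNReal.le_div_iff_mul_le (Or.inl (by
    rw [ne_eq, ENNReal.ofReal_eq_zero, not_le]; exact abs_pos.2 hb0))
    (Or.inl ENNReal.ofReal_ne_top)]
  exact hb2

theorem to_dL {K : Set V} (hK : IsCompact K) {c : ℝ≥0∞}
    (h : ∃ b : Fin 3 → V, Packs K b ∧ c * ENNReal.ofReal |dt b| ≤ volume K) : c ≤ dL K := by
  obtain ⟨b, hb1, hb2⟩ := h
  have hb0 : dt b ≠ 0 := ((packs_iff _ _).1 hb1).1
  rw [dL_eq]
  have hle : dens K b ≤ deltaL K := by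
    unfold deltaL
    exact le_iSup₂_of_le b hb1 le_rfl
  refine le_trans ?_ hle
  rw [dens_eq b ((dt_ne_zero_iff b).1 hb0) _ hK]
  rw [ENNReal.le_div_iff_mul_le (Or.inl (by
    rw [ne_eq, ENNReal.ofReal_eq_zero, not_le]; exact abs_pos.2 hb0))
    (Or.inl ENNReal.ofReal_ne_top)]
  exact hb2

/-- a convex body whose shadow contains a triangle and lies in a homothetic one -/
theorem near_gen {K : Set V} (hK : IsCompact K) (hc : Convex ℝ K) (hne : (interior K).Nonempty)
    {A B C : W} (hA : A ∈ G K 0) (hB : B ∈ G K 0) (hC : C ∈ G K 0) (hM : 0 < Dt A B C)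
    {α β γ σ : ℝ} (hσ : σ = 1 + α + β + γ) (hσ2 : σ ≤ 2) (α0 : 0 ≤ α) (β0 : 0 ≤ β) (γ0 : 0 ≤ γ)
    (bA : ∀ X ∈ G K 0, -(α * Dt A B C) ≤ Dt X B C) (bB : ∀ X ∈ G K 0, -(β * Dt A B C) ≤ Dt A X C)
    (bC : ∀ X ∈ G K 0, -(γ * Dt A B C) ≤ Dt A B X) :
    ∃ b : Fin 3 → V, Packs K b ∧
      ENNReal.ofReal (4 / (15 * σ ^ 2)) * ENNReal.ofReal |dt b| ≤ volume K := by
  rw [G_zero] at hA hB hC
  obtain ⟨zA, hzA, rfl⟩ := hA
  obtain ⟨zB, hzB, rfl⟩ := hB
  obtain ⟨zC, hzC, rfl⟩ := hC
  set F : V →ₗ[ℝ] V := Matrix.toLin' !![1, zB 0 - zA 0, zC 0 - zA 0;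
    0, zB 1 - zA 1, zC 1 - zA 1; 0, zB 2 - zA 2, zC 2 - zA 2] with hF
  have hdet : LinearMap.det F = Dt (pr zA) (pr zB) (pr zC) := by
    simp only [hF, LinearMap.det_toLin', Matrix.det_fin_three, Dt]
    simp
    ring
  have hdet0 : LinearMap.det F ≠ 0 := by rw [hdet]; exact hM.ne'
  set E := LinearMap.equivOfDetNeZero _ hdet0 with hE
  have hEF : ∀ y : V, E y = F y := fun y => rfl
  have F0 : ∀ y : V, F y 0 = y 0 + (zB 0 - zA 0) * y 1 + (zC 0 - zA 0) * y 2 := by
    intro y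
    simp [hF, Matrix.toLin'_apply, Matrix.mulVec, dotProduct, Fin.sum_univ_three]
  have F1 : ∀ y : V, F y 1 = (zB 1 - zA 1) * y 1 + (zC 1 - zA 1) * y 2 := by
    intro y
    simp [hF, Matrix.toLin'_apply, Matrix.mulVec, dotProduct, Fin.sum_univ_three]
  have F2 : ∀ y : V, F y 2 = (zB 2 - zA 2) * y 1 + (zC 2 - zA 2) * y 2 := by
    intro y
    simp [hF, Matrix.toLin'_apply, Matrix.mulVec, dotProduct, Fin.sum_univ_three]
  apply transfer E.symm (-E.symm zA)
  set K' : Set V := (fun x => E.symm x + -E.symm zA) '' K with hK'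
  have hmem : ∀ y : V, y ∈ K' ↔ E y + zA ∈ K := by
    intro y
    constructor
    · rintro ⟨x, hx, rfl⟩
      simpa using hx
    · intro hy
      refine ⟨E y + zA, hy, ?_⟩
      simp
  have hK'c : IsCompact K' :=
    hK.image ((LinearMap.continuous_of_finiteDimensional E.symm.toLinearMap).add
      continuous_const)
  have hK'v : Convex ℝ K' := by
    intro x hx y hy a b ha hb hab
    rw [hmem] at hx hy ⊢
    have := hc hx hy ha hb hab
    convert this using 1
    rw [map_add, map_smul, map_smul]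
    have e : zA = a • zA + b • zA := by rw [← add_smul, hab, one_smul]
    nth_rewrite 1 [e]
    rw [smul_add, smul_add]
    abel
  have hK'n : (interior K').Nonempty := by
    rw [hK', pack_interior_image]
    exact hne.image _
  have k1 : (![0, 0, 0] : V) ∈ K' := by
    rw [hmem]
    have : E ![0, 0, 0] + zA = zA := by
      have e : (![0, 0, 0] : V) = 0 := by funext i; fin_cases i <;> rfl
      rw [e, map_zero, zero_add]
    rw [this]; exact hzA
  have k2 : (![0, 1, 0] : V) ∈ K' := by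
    rw [hmem]
    have : E ![0, 1, 0] + zA = zB := by
      funext i
      rw [Pi.add_apply, hEF]
      fin_cases i
      · show F ![0, 1, 0] 0 + zA 0 = zB 0
        rw [F0]; simp
      · show F ![0, 1, 0] 1 + zA 1 = zB 1
        rw [F1]; simp
      · show F ![0, 1, 0] 2 + zA 2 = zB 2
        rw [F2]; simp
    rw [this]; exact hzB
  have k3 : (![0, 0, 1] : V) ∈ K' := by
    rw [hmem]
    have : E ![0, 0, 1] + zA = zC := by
      funext i
      rw [Pi.add_apply, hEF]
      fin_cases i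
      · show F ![0, 0, 1] 0 + zA 0 = zC 0
        rw [F0]; simp
      · show F ![0, 0, 1] 1 + zA 1 = zC 1
        rw [F1]; simp
      · show F ![0, 0, 1] 2 + zA 2 = zC 2
        rw [F2]; simp
    rw [this]; exact hzC
  have hpt : ∀ y ∈ K', pr (E y + zA) ∈ G K 0 := by
    intro y hy
    rw [G_zero]
    exact ⟨_, (hmem y).1 hy, rfl⟩
  refine near hK'c hK'v hK'n k1 k2 k3 hσ hσ2 α0 β0 γ0 ?_ ?_ ?_
  · intro y hy
    have h := bA _ (hpt y hy)
    have e : Dt (pr (E y + zA)) (pr zB) (pr zC)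
        = (1 - y 1 - y 2) * Dt (pr zA) (pr zB) (pr zC) := by
      unfold Dt
      simp only [pr_zero, pr_one, Pi.add_apply, hEF, F1, F2]
      ring
    rw [e] at h
    by_contra hcon
    push Not at hcon
    nlinarith
  · intro y hy
    have h := bB _ (hpt y hy)
    have e : Dt (pr zA) (pr (E y + zA)) (pr zC)
        = y 1 * Dt (pr zA) (pr zB) (pr zC) := by
      unfold Dt
      simp only [pr_zero, pr_one, Pi.add_apply, hEF, F1, F2]
      ring
    rw [e] at h
    by_contra hcon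
    push Not at hcon
    nlinarith
  · intro y hy
    have h := bC _ (hpt y hy)
    have e : Dt (pr zA) (pr zB) (pr (E y + zA))
        = y 2 * Dt (pr zA) (pr zB) (pr zC) := by
      unfold Dt
      simp only [pr_zero, pr_one, Pi.add_apply, hEF, F1, F2]
      ring
    rw [e] at h
    by_contra hcon
    push Not at hcon
    nlinarith

end Pool.Agent.H29.PK
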