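import Pool.Graph.R_seed8.R747.PkTop
import Pool.Agent.H29.PK.Norm
import Pool.Agent.H29.PK.Fary

/-!
# Every convex body in space has a lattice packing of density at least `0.2506`
-/

set_option autoImplicit false

namespace Pool.Agent.H29.PK

open MeasureTheory Filter Topology
open scoped ENNReal
open Pool.Agent.H349R2.Tet
open Pool.Agent.TH219.DL
open Pool.Agent.Y498.ML
open Pool.Agent.R747.Pk

/-- a body of diameter one with a vertical chord of length one and two chords whose shadows span a
parallelogram of area at least `2√3/5` -/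
theorem geo2 {K : Set V} (hK : IsCompact K) (hc : Convex ℝ K) (hne : (interior K).Nonempty)
    (hd : ∀ x ∈ K, ∀ y ∈ K, (x 0 - y 0) ^ 2 + (x 1 - y 1) ^ 2 + (x 2 - y 2) ^ 2 ≤ 1)
    {x0 : Fin 2 → ℝ} (hx0 : x0 ∈ G K 1)
    (hw : ∃ x ∈ K, ∃ y ∈ K, ∃ z ∈ K, ∃ t ∈ K,
      12 / 25 ≤ ((x 1 - y 1) * (z 2 - t 2) - (x 2 - y 2) * (z 1 - t 1)) ^ 2) :
    ∃ b : Fin 3 → V, Packs K b ∧
      ENNReal.ofReal 0.2506 * ENNReal.ofReal |dt b| ≤ volume K := by
  obtain ⟨A, hA, B, hB, C, hC, α, β, γ, α0, β0, γ0, hM, bA, bB, bC, u, w, hD, -, hDle, hadm⟩ :=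
    fary' (shadow_convex hc) (shadow_compact hK) (shadow_interior hne)
  rcases lt_or_ge (α + β + γ) 0.0313 with hτ | hτ
  · -- the shadow is close to a triangle
    obtain ⟨b, hb1, hb2⟩ := near_gen hK hc hne hA hB hC hM rfl (by norm_num at hτ ⊢; linarith)
      α0 β0 γ0 bA bB bC
    refine ⟨b, hb1, le_trans ?_ hb2⟩
    gcongr
    have h1 : (1 + α + β + γ) ^ 2 ≤ 1.0313 ^ 2 := by
      apply pow_le_pow_left₀ (by positivity)
      norm_num at hτ ⊢; linarith
    rw [le_div_iff₀ (by positivity)]
    norm_num at h1 ⊢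
    linarith
  · have hDle := hDle hτ
    set D : ℝ := u 0 * w 1 - u 1 * w 0 with hDd
    have h3 : √3 ^ 2 = 3 := Real.sq_sqrt (by norm_num)
    have h30 : 0 < √3 := Real.sqrt_pos.2 (by norm_num)
    have hcone := cone hK hc one_pos hx0
    have hcone' : ENNReal.ofReal (1 / 3) * volume (G K 0) ≤ volume K := by
      simpa using hcone
    -- the area of the shadow
    have harea : ENNReal.ofReal (√3 / 5) ≤ volume (G K 0) := by
      obtain ⟨x, hx, y, hy, z, hz, t, ht, h⟩ := hw
      have hg : ∀ v ∈ K, pr v ∈ G K 0 := fun v hv => by rw [G_zero]; exact ⟨v, hv, rfl⟩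
      refine le_trans (ENNReal.ofReal_le_ofReal ?_)
        (area_cross (shadow_convex hc) (hg x hx) (hg y hy) (hg z hz) (hg t ht))
      simp only [pr_zero, pr_one]
      have h1 : (2 * √3 / 5) ^ 2 ≤ ((x 1 - y 1) * (z 2 - t 2) - (x 2 - y 2) * (z 1 - t 1)) ^ 2 := by
        rw [div_pow, mul_pow, h3]; linarith
      have h2 := sq_le_sq.1 h1
      rw [abs_of_pos (by positivity)] at h2
      linarith
    have main : ∀ s : ℝ, 0 < s → 1 ≤ 4 * s ^ 2 → 27 * (1 - s ^ 2) ^ 2 ≤ 4 * D ^ 2 → 0 ≤ 1 - s ^ 2 →
        ENNReal.ofReal (0.2506 * (s * D)) ≤ volume K →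
        ∃ b : Fin 3 → V, Packs K b ∧ ENNReal.ofReal 0.2506 * ENNReal.ofReal |dt b| ≤ volume K := by
      intro s hs0 hs4 hle hs1 hvol
      obtain ⟨t, ht⟩ := hole_area hD hs1 hle
      refine ⟨bh s t u w, hole_packs hs0 hd hD hadm hs4 ht, ?_⟩
      rw [dt_bh, abs_of_pos (mul_pos hs0 hD), ← ENNReal.ofReal_mul (by positivity)]
      exact hvol
    have q2 : √0.802 ^ 2 = (0.802 : ℝ) := Real.sq_sqrt (by norm_num)
    have q0 : 0 < √(0.802 : ℝ) := Real.sqrt_pos.2 (by norm_num)
    have qle : √(0.802 : ℝ) ≤ 0.89555 := Real.sqrt_le_iff.2 ⟨by norm_num, by norm_num⟩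
    rcases le_or_gt (0.297 * √3) D with hx | hx
    · refine main (√0.802) q0 ?_ ?_ ?_ ?_
      · rw [q2]; norm_num
      · rw [q2]
        have : (0.297 * √3) ^ 2 ≤ D ^ 2 := pow_le_pow_left₀ (by positivity) hx 2
        rw [mul_pow, h3] at this
        norm_num at this ⊢
        linarith
      · rw [q2]; norm_num
      · calc ENNReal.ofReal (0.2506 * (√0.802 * D))
            ≤ ENNReal.ofReal (1 / 4.455 * D) := by
              apply ENNReal.ofReal_le_ofReal
              have : 0.2506 * √(0.802 : ℝ) ≤ 1 / 4.455 := by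
                have := mul_le_mul_of_nonneg_left qle (show (0 : ℝ) ≤ 0.2506 by norm_num)
                refine this.trans ?_
                norm_num
              nlinarith
          _ = ENNReal.ofReal (1 / 4.455) * ENNReal.ofReal D :=
              ENNReal.ofReal_mul (by norm_num)
          _ ≤ ENNReal.ofReal (1 / 4.455) * (ENNReal.ofReal 1.485 * volume (G K 0)) := by gcongr
          _ = ENNReal.ofReal (1 / 3) * volume (G K 0) := by
              rw [← mul_assoc, ← ENNReal.ofReal_mul (by norm_num)]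
              congr 2
              norm_num
          _ ≤ volume K := hcone'
    · set τ : ℝ := 2 * √3 / 9 * D with hτ
      have hτ0 : 0 < τ := by positivity
      have hτ5 : τ < 0.198 := by
        rw [hτ]
        have : 2 * √3 / 9 * D < 2 * √3 / 9 * (0.297 * √3) := by gcongr
        refine this.trans_le (le_of_eq ?_)
        have : 2 * √3 / 9 * (0.297 * √3) = √3 ^ 2 * 0.066 := by ring
        rw [this, h3]; norm_num
      have hτ2 : τ ^ 2 = 4 / 27 * D ^ 2 := by
        rw [hτ, mul_pow, div_pow, mul_pow, h3]; ring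
      have hs2 : √(1 - τ) ^ 2 = 1 - τ := Real.sq_sqrt (by linarith)
      refine main (√(1 - τ)) (Real.sqrt_pos.2 (by linarith)) ?_ ?_ ?_ ?_
      · rw [hs2]; linarith
      · rw [hs2]; nlinarith
      · rw [hs2]; linarith
      · refine le_trans ?_ hcone'
        calc ENNReal.ofReal (0.2506 * (√(1 - τ) * D))
            ≤ ENNReal.ofReal (1 / 3 * (√3 / 5)) := by
              apply ENNReal.ofReal_le_ofReal
              rw [← pow_le_pow_iff_left₀ (by positivity) (by positivity) (two_ne_zero)]
              rw [mul_pow, mul_pow, mul_pow, div_pow, div_pow, h3, hs2]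
              have hf : 0 ≤ (0.198 - τ) * (0.198 * 0.802 + 0.802 * τ - τ ^ 2) := by
                apply mul_nonneg (by linarith)
                nlinarith
              have hf2 : τ ^ 2 * (1 - τ) ≤ 0.198 ^ 2 * 0.802 := by nlinarith
              have hf3 : D ^ 2 * (1 - τ) ≤ 27 / 4 * (0.198 ^ 2 * 0.802) := by
                have : D ^ 2 = 27 / 4 * τ ^ 2 := by rw [hτ2]; ring
                rw [this]; nlinarith
              norm_num at hf3 ⊢
              nlinarith
          _ = ENNReal.ofReal (1 / 3) * ENNReal.ofReal (√3 / 5) := ENNReal.ofReal_mul (by norm_num)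
          _ ≤ ENNReal.ofReal (1 / 3) * volume (G K 0) := by gcongr

/-- every convex body in space has a lattice packing of density at least `0.2506` -/
theorem low2 {K : Set V} (hK : Body K) : ENNReal.ofReal 0.2506 ≤ dL K := by
  obtain ⟨L, h1, ⟨x0, h2⟩, h3⟩ := normal' hK
  obtain ⟨hc, hv, hne⟩ := hK
  have himg : (L '' K) = (fun x => L x + 0) '' K := by
    apply Set.image_congr
    intro x _
    simp
  have hc' : IsCompact (L '' K) := hc.image (LinearMap.continuous_of_finiteDimensional L.toLinearMap)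
  have hv' : Convex ℝ (L '' K) := hv.linear_image L.toLinearMap
  have hne' : (interior (L '' K)).Nonempty := by
    rw [himg, pack_interior_image]
    exact hne.image _
  have h := geo2 hc' hv' hne' h1 h2 h3
  rw [himg] at h
  exact to_dL hc (transfer L 0 h)

end Pool.Agent.H29.PK
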