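import Pool.Agent.H29.PK.Corner

/-!
# A lattice packing of a convex body whose shadow is close to a triangle
-/

set_option autoImplicit false

namespace Pool.Agent.H29.PK

open MeasureTheory
open scoped ENNReal
open Pool.Agent.H349R2.Tet
open Pool.Agent.TH219.DL

/-- three numbers of given sum between given bounds -/
theorem choice3 {S1 S2 S3 T1 T2 T3 : Set ℝ} {N : ℝ}
    (s1 : S1.Nonempty) (s2 : S2.Nonempty) (s3 : S3.Nonempty)
    (t1 : T1.Nonempty) (t2 : T2.Nonempty) (t3 : T3.Nonempty)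
    (hS : ∀ a ∈ S1, ∀ b ∈ S2, ∀ c ∈ S3, a + b + c ≤ N)
    (h1 : ∀ a ∈ S1, ∀ b ∈ T1, a + b ≤ N) (h2 : ∀ a ∈ S2, ∀ b ∈ T2, a + b ≤ N)
    (h3 : ∀ a ∈ S3, ∀ b ∈ T3, a + b ≤ N)
    (hT : ∀ a ∈ T1, ∀ b ∈ T2, ∀ c ∈ T3, a + b + c ≤ 2 * N) :
    ∃ L1 L2 L3 : ℝ, L1 + L2 + L3 = N ∧ (∀ a ∈ S1, a ≤ L1) ∧ (∀ a ∈ S2, a ≤ L2) ∧
      (∀ a ∈ S3, a ≤ L3) ∧ (∀ a ∈ T1, a ≤ N - L1) ∧ (∀ a ∈ T2, a ≤ N - L2) ∧
      (∀ a ∈ T3, a ≤ N - L3) := by
  have key : ∀ {S T : Set ℝ}, S.Nonempty → T.Nonempty → (∀ a ∈ S, ∀ b ∈ T, a + b ≤ N) →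
      (∀ a ∈ S, a ≤ sSup S) ∧ (∀ b ∈ T, b ≤ sSup T) ∧ sSup S + sSup T ≤ N := by
    intro S T hS hT h
    have bS : BddAbove S := by
      obtain ⟨b, hb⟩ := hT
      exact ⟨N - b, fun a ha => by linarith [h a ha b hb]⟩
    have bT : BddAbove T := by
      obtain ⟨a, ha⟩ := hS
      exact ⟨N - a, fun b hb => by linarith [h a ha b hb]⟩
    refine ⟨fun a ha => le_csSup bS ha, fun b hb => le_csSup bT hb, ?_⟩
    have e1 : ∀ b ∈ T, sSup S ≤ N - b := fun b hb => csSup_le hS fun a ha => by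
      linarith [h a ha b hb]
    have e2 : sSup T ≤ N - sSup S := csSup_le hT fun b hb => by linarith [e1 b hb]
    linarith
  obtain ⟨a1, b1, c1⟩ := key s1 t1 h1
  obtain ⟨a2, b2, c2⟩ := key s2 t2 h2
  obtain ⟨a3, b3, c3⟩ := key s3 t3 h3
  have tri : ∀ {A B C : Set ℝ} {M : ℝ}, A.Nonempty → B.Nonempty → C.Nonempty →
      (∀ a ∈ A, ∀ b ∈ B, ∀ c ∈ C, a + b + c ≤ M) → sSup A + sSup B + sSup C ≤ M := by
    intro A B C M hA hB hC h
    have e1 : ∀ b ∈ B, ∀ c ∈ C, sSup A ≤ M - b - c := fun b hb c hc => csSup_le hA fun a ha => by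
      linarith [h a ha b hb c hc]
    have e2 : ∀ c ∈ C, sSup B ≤ M - sSup A - c := fun c hc => csSup_le hB fun b hb => by
      linarith [e1 b hb c hc]
    have e3 : sSup C ≤ M - sSup A - sSup B := csSup_le hC fun c hc => by linarith [e2 c hc]
    linarith
  have hSS := tri s1 s2 s3 hS
  have hTT := tri t1 t2 t3 hT
  set α1 := sSup S1
  set α2 := sSup S2
  set α3 := sSup S3
  set β1 := sSup T1
  set β2 := sSup T2
  set β3 := sSup T3
  obtain ⟨L1, L2, L3, hs, p1, p2, p3, q1, q2, q3⟩ : ∃ L1 L2 L3 : ℝ, L1 + L2 + L3 = N ∧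
      α1 ≤ L1 ∧ α2 ≤ L2 ∧ α3 ≤ L3 ∧ β1 ≤ N - L1 ∧ β2 ≤ N - L2 ∧ β3 ≤ N - L3 := by
    rcases le_total α1 (β2 + β3 - N) with h | h
    · rcases le_total α2 (N - (β2 + β3 - N) - (N - β3)) with g | g
      · exact ⟨β2 + β3 - N, N - (β2 + β3 - N) - (N - β3), N - β3, by ring, by linarith,
          by linarith, by linarith, by linarith, by linarith, by linarith⟩
      · exact ⟨β2 + β3 - N, α2, N - (β2 + β3 - N) - α2, by ring, by linarith,
          by linarith, by linarith, by linarith, by linarith, by linarith⟩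
    · rcases le_total α2 (N - α1 - (N - β3)) with g | g
      · exact ⟨α1, N - α1 - (N - β3), N - β3, by ring, by linarith,
          by linarith, by linarith, by linarith, by linarith, by linarith⟩
      · exact ⟨α1, α2, N - α1 - α2, by ring, by linarith,
          by linarith, by linarith, by linarith, by linarith, by linarith⟩
  exact ⟨L1, L2, L3, hs, fun a ha => (a1 a ha).trans p1, fun a ha => (a2 a ha).trans p2,
    fun a ha => (a3 a ha).trans p3, fun a ha => (b1 a ha).trans q1,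
    fun a ha => (b2 a ha).trans q2, fun a ha => (b3 a ha).trans q3⟩

/-- height differences of two points of `K` whose projections differ by `(p, q)` -/
def Sd (K : Set V) (p q : ℝ) : Set ℝ :=
  {a | ∃ x ∈ K, ∃ y ∈ K, x 1 - y 1 = p ∧ x 2 - y 2 = q ∧ a = x 0 - y 0}

theorem int_ineq {K : Set V} {p q L M : ℝ} (hS : ∀ a ∈ Sd K p q, a ≤ L)
    (hT : ∀ a ∈ Sd K (-p) (-q), a ≤ M) {x v : V} (hx : x ∈ interior K)
    (hxv : x - v ∈ interior K) (hp : v 1 = p) (hq : v 2 = q) : v 0 < L ∧ -M < v 0 := by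
  constructor
  · obtain ⟨ε, hε, hxε⟩ := interior_push hx ![1, 0, 0]
    have := hS _ ⟨_, hxε, _, interior_subset hxv, by simp [hp], by simp [hq], rfl⟩
    simp at this
    linarith
  · obtain ⟨ε, hε, hxε⟩ := interior_push hxv ![1, 0, 0]
    have := hT _ ⟨_, hxε, _, interior_subset hx, by simp [hp], by simp [hq], rfl⟩
    simp at this
    linarith

theorem no_int {N v : ℝ} (n : ℤ) {L : ℝ} (hN : 0 < N) (h1 : v < L) (h2 : -(N - L) < v)
    (h : v = n * N + L) : False := by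
  have h3 : (n : ℝ) * N < 0 := by linarith
  have h4 : 0 < ((n : ℝ) + 1) * N := by linarith
  have h5 : (n : ℝ) < 0 := by
    by_contra hcon
    push Not at hcon
    have := mul_nonneg hcon hN.le
    linarith
  have h6 : (0 : ℝ) < n + 1 := by
    by_contra hcon
    push Not at hcon
    have := mul_nonneg (show 0 ≤ -((n : ℝ) + 1) by linarith) hN.le
    linarith
  have h7 : n < 0 := by exact_mod_cast h5
  have h8 : 0 < n + 1 := by exact_mod_cast h6
  omega

/-- the lattice -/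
noncomputable def bn (σ L1 L2 L3 : ℝ) : Fin 3 → V :=
  ![![L1, σ / 2, 0], ![L2, -(σ / 2), σ / 2], ![L3, 0, -(σ / 2)]]

theorem dt_bn (σ L1 L2 L3 : ℝ) : dt (bn σ L1 L2 L3) = (L1 + L2 + L3) * σ ^ 2 / 4 := by
  unfold dt bn
  rw [Matrix.det_fin_three]
  simp
  ring

theorem near_packs {K : Set V} {tA tB tC σ N L1 L2 L3 : ℝ} (hσ : σ = 1 + tA + tB + tC)
    (tA0 : 0 ≤ tA) (tB0 : 0 ≤ tB) (tC0 : 0 ≤ tC)
    (hA : ∀ x ∈ K, -tA ≤ 1 - x 1 - x 2) (hB : ∀ x ∈ K, -tB ≤ x 1) (hC : ∀ x ∈ K, -tC ≤ x 2)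
    (hN : 0 < N) (hL : L1 + L2 + L3 = N) (h0 : ∀ a ∈ Sd K 0 0, a ≤ N)
    (s1 : ∀ a ∈ Sd K (σ / 2) 0, a ≤ L1) (s2 : ∀ a ∈ Sd K (-(σ / 2)) (σ / 2), a ≤ L2)
    (s3 : ∀ a ∈ Sd K 0 (-(σ / 2)), a ≤ L3)
    (t1 : ∀ a ∈ Sd K (-(σ / 2)) 0, a ≤ N - L1) (t2 : ∀ a ∈ Sd K (σ / 2) (-(σ / 2)), a ≤ N - L2)
    (t3 : ∀ a ∈ Sd K 0 (σ / 2), a ≤ N - L3) : Packs K (bn σ L1 L2 L3) := by
  have hσ0 : 0 < σ := by rw [hσ]; linarith
  rw [packs_iff]
  refine ⟨?_, ?_⟩
  · rw [dt_bn, hL]; positivity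
  · rintro v ⟨z, rfl⟩ hv0 ⟨x, hx, hxv⟩
    set v : V := ∑ i, (z i : ℝ) • bn σ L1 L2 L3 i with hv
    have v0 : v 0 = z 0 * L1 + z 1 * L2 + z 2 * L3 := by
      rw [hv]; simp [Fin.sum_univ_three, bn]
    have v1 : v 1 = (z 0 - z 1) * (σ / 2) := by
      rw [hv]; simp [Fin.sum_univ_three, bn]; ring
    have v2 : v 2 = (z 1 - z 2) * (σ / 2) := by
      rw [hv]; simp [Fin.sum_univ_three, bn]; ring
    -- strict bounds for interior points
    have iA : ∀ y ∈ interior K, -tA < 1 - y 1 - y 2 := by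
      intro y hy
      obtain ⟨ε, hε, hyε⟩ := interior_push hy ![0, 1, 0]
      have := hA _ hyε
      simp at this
      linarith
    have iB : ∀ y ∈ interior K, -tB < y 1 := by
      intro y hy
      obtain ⟨ε, hε, hyε⟩ := interior_push hy ![0, -1, 0]
      have := hB _ hyε
      simp at this
      linarith
    have iC : ∀ y ∈ interior K, -tC < y 2 := by
      intro y hy
      obtain ⟨ε, hε, hyε⟩ := interior_push hy ![0, 0, -1]
      have := hC _ hyε
      simp at this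
      linarith
    have a1 := iA _ hx
    have a2 := iB _ hx
    have a3 := iC _ hx
    have b1 := iA _ hxv
    have b2 := iB _ hxv
    have b3 := iC _ hxv
    simp only [Pi.sub_apply] at b1 b2 b3
    have w1 : v 1 < σ := by linarith
    have w1' : -σ < v 1 := by linarith
    have w2 : v 2 < σ := by linarith
    have w2' : -σ < v 2 := by linarith
    have w3 : v 1 + v 2 < σ := by linarith
    have w3' : -σ < v 1 + v 2 := by linarith
    have lt2 : ∀ m : ℤ, (m : ℝ) * (σ / 2) < σ → m < 2 := by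
      intro m hm
      by_contra hcon
      push Not at hcon
      have : (2 : ℝ) ≤ m := by exact_mod_cast hcon
      nlinarith
    have d1 : z 0 - z 1 < 2 := lt2 _ (by push_cast; rw [← v1]; exact w1)
    have d1' : z 1 - z 0 < 2 := lt2 _ (by push_cast; linarith)
    have d2 : z 1 - z 2 < 2 := lt2 _ (by push_cast; rw [← v2]; exact w2)
    have d2' : z 2 - z 1 < 2 := lt2 _ (by push_cast; linarith)
    have d3 : z 0 - z 2 < 2 := lt2 _ (by push_cast; linarith)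
    have d3' : z 2 - z 0 < 2 := lt2 _ (by push_cast; linarith)
    have hcases : (z 0 = z 1 ∧ z 2 = z 1) ∨ (z 0 = z 1 + 1 ∧ z 2 = z 1) ∨
        (z 0 = z 1 - 1 ∧ z 2 = z 1) ∨ (z 0 = z 1 ∧ z 2 = z 1 - 1) ∨ (z 0 = z 1 ∧ z 2 = z 1 + 1) ∨
        (z 0 = z 1 + 1 ∧ z 2 = z 1 + 1) ∨ (z 0 = z 1 - 1 ∧ z 2 = z 1 - 1) := by omega
    have hv' : x - v - -v ∈ interior K := by simpa using hx
    rcases hcases with ⟨e0, e2⟩ | ⟨e0, e2⟩ | ⟨e0, e2⟩ | ⟨e0, e2⟩ | ⟨e0, e2⟩ | ⟨e0, e2⟩ | ⟨e0, e2⟩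
    · -- a vertical vector
      have hv0' : v 0 = z 1 * N := by rw [v0, e0, e2, ← hL]; ring
      have hv1' : v 1 = 0 := by rw [v1, e0]; ring
      have hv2' : v 2 = 0 := by rw [v2, e2]; ring
      obtain ⟨g1, g2⟩ := int_ineq h0 (by simpa using h0) hx hxv hv1' hv2'
      have hz : z 1 = 0 := by
        rw [hv0'] at g1 g2
        have g3 : (z 1 : ℝ) < 1 := by
          by_contra hcon
          push Not at hcon
          have := mul_nonneg (show 0 ≤ (z 1 : ℝ) - 1 by linarith) hN.le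
          linarith
        have g4 : (-1 : ℝ) < z 1 := by
          by_contra hcon
          push Not at hcon
          have := mul_nonneg (show 0 ≤ -1 - (z 1 : ℝ) by linarith) hN.le
          linarith
        have g5 : z 1 < 1 := by exact_mod_cast g3
        have g6 : -1 < z 1 := by exact_mod_cast g4
        omega
      apply hv0
      funext i
      fin_cases i
      · show v 0 = 0
        rw [hv0', hz]; simp
      · exact hv1'
      · exact hv2'
    · -- `r₁`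
      obtain ⟨g1, g2⟩ := int_ineq s1 (by simpa using t1) hx hxv (by rw [v1, e0]; push_cast; ring)
        (by rw [v2, e2]; ring)
      exact no_int (z 1) hN g1 g2 (by rw [v0, e0, e2, ← hL]; push_cast; ring)
    · -- `-r₁`
      obtain ⟨g1, g2⟩ := int_ineq (v := -v) s1 (by simpa using t1) hxv hv'
        (by rw [Pi.neg_apply, v1, e0]; push_cast; ring) (by rw [Pi.neg_apply, v2, e2]; ring)
      exact no_int (-z 1) hN g1 g2 (by rw [Pi.neg_apply, v0, e0, e2, ← hL]; push_cast; ring)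
    · -- `-r₃`
      obtain ⟨g1, g2⟩ := int_ineq (v := -v) s3 (by simpa using t3) hxv hv'
        (by rw [Pi.neg_apply, v1, e0]; ring) (by rw [Pi.neg_apply, v2, e2]; push_cast; ring)
      exact no_int (-z 1) hN g1 g2 (by rw [Pi.neg_apply, v0, e0, e2, ← hL]; push_cast; ring)
    · -- `r₃`
      obtain ⟨g1, g2⟩ := int_ineq s3 (by simpa using t3) hx hxv (by rw [v1, e0]; ring)
        (by rw [v2, e2]; push_cast; ring)
      exact no_int (z 1) hN g1 g2 (by rw [v0, e0, e2, ← hL]; push_cast; ring)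
    · -- `-r₂`
      obtain ⟨g1, g2⟩ := int_ineq (v := -v) s2 (by simpa using t2) hxv hv'
        (by rw [Pi.neg_apply, v1, e0]; push_cast; ring)
        (by rw [Pi.neg_apply, v2, e2]; push_cast; ring)
      exact no_int (-(z 1 + 1)) hN g1 g2
        (by rw [Pi.neg_apply, v0, e0, e2, ← hL]; push_cast; ring)
    · -- `r₂`
      obtain ⟨g1, g2⟩ := int_ineq s2 (by simpa using t2) hx hxv
        (by rw [v1, e0]; push_cast; ring) (by rw [v2, e2]; push_cast; ring)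
      exact no_int (z 1 - 1) hN g1 g2 (by rw [v0, e0, e2, ← hL]; push_cast; ring)

/-- a convex body between a triangular prism's shadow and a homothetic one -/
theorem near {K : Set V} (hK : IsCompact K) (hc : Convex ℝ K) (hne : (interior K).Nonempty)
    (h1 : (![0, 0, 0] : V) ∈ K) (h2 : (![0, 1, 0] : V) ∈ K) (h3 : (![0, 0, 1] : V) ∈ K)
    {tA tB tC σ : ℝ} (hσ : σ = 1 + tA + tB + tC) (hσ2 : σ ≤ 2)
    (tA0 : 0 ≤ tA) (tB0 : 0 ≤ tB) (tC0 : 0 ≤ tC)
    (hA : ∀ x ∈ K, -tA ≤ 1 - x 1 - x 2) (hB : ∀ x ∈ K, -tB ≤ x 1) (hC : ∀ x ∈ K, -tC ≤ x 2) :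
    ∃ b : Fin 3 → V, Packs K b ∧
      ENNReal.ofReal (4 / (15 * σ ^ 2)) * ENNReal.ofReal |dt b| ≤ volume K := by
  have hσ0 : 0 < σ := by rw [hσ]; linarith
  have hfin : volume K ≠ ∞ := hK.measure_lt_top.ne
  set ν := (volume K).toReal with hν
  have hνK : volume K = ENNReal.ofReal ν := (ENNReal.ofReal_toReal hfin).symm
  have hνpos : 0 < ν := by
    have : 0 < volume K := (isOpen_interior.measure_pos volume hne).trans_le
      (measure_mono interior_subset)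
    exact ENNReal.toReal_pos this.ne' hfin
  have hfu : volume (K ∩ {x | 0 < 1 * x 0}) ≠ ∞ :=
    ((measure_mono Set.inter_subset_left).trans_lt hK.measure_lt_top).ne
  have hfd : volume (K ∩ {x | 0 < (-1) * x 0}) ≠ ∞ :=
    ((measure_mono Set.inter_subset_left).trans_lt hK.measure_lt_top).ne
  set νu := (volume (K ∩ {x | 0 < 1 * x 0})).toReal with hνu
  set νd := (volume (K ∩ {x | 0 < (-1) * x 0})).toReal with hνd
  have hu : volume (K ∩ {x | 0 < 1 * x 0}) ≤ ENNReal.ofReal νu := (ENNReal.ofReal_toReal hfu).ge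
  have hd : volume (K ∩ {x | 0 < (-1) * x 0}) ≤ ENNReal.ofReal νd :=
    (ENNReal.ofReal_toReal hfd).ge
  have hu0 : 0 ≤ νu := ENNReal.toReal_nonneg
  have hd0 : 0 ≤ νd := ENNReal.toReal_nonneg
  have hud : νu + νd ≤ ν := by
    rw [hνu, hνd, hν, ← ENNReal.toReal_add hfu hfd]
    apply ENNReal.toReal_mono hfin
    have hdisj : Disjoint (K ∩ {x : V | 0 < 1 * x 0}) (K ∩ {x | 0 < (-1) * x 0}) := by
      rw [Set.disjoint_left]
      rintro x ⟨-, hx1⟩ ⟨-, hx2⟩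
      have hx1' : 0 < 1 * x 0 := hx1
      have hx2' : 0 < (-1) * x 0 := hx2
      linarith
    have hm : MeasurableSet (K ∩ {x : V | 0 < (-1) * x 0}) :=
      hK.measurableSet.inter (isOpen_lt continuous_const (by fun_prop)).measurableSet
    rw [← measure_union hdisj hm]
    exact measure_mono (Set.union_subset Set.inter_subset_left Set.inter_subset_left)
  have e1 : |(1 : ℝ)| = 1 := abs_one
  have e2 : |(-1 : ℝ)| = 1 := by simp
  have Hu : ∀ x ∈ K, x 0 ≤ 6 * νu := fun x hx => by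
    have := height hc e1 hu0 hu h1 h2 h3 hx
    linarith
  have Hd : ∀ x ∈ K, -x 0 ≤ 6 * νd := fun x hx => by
    have := height hc e2 hd0 hd h1 h2 h3 hx
    linarith
  have Cu : ∀ P ∈ K, ∀ Q ∈ K, ∀ R ∈ K, (1 + tB + tC - tA) / 2 ≤ 1 - P 1 - P 2 →
      (1 + tA + tC - tB) / 2 ≤ Q 1 → (1 + tA + tB - tC) / 2 ≤ R 2 →
      P 0 + Q 0 + R 0 ≤ 15 * νu := fun P hP Q hQ R hR a b c => by
    have := corner hc e1 hu0 hu h1 h2 h3 tA0 tB0 tC0 hP hQ hR a b c
    linarith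
  have Cd : ∀ P ∈ K, ∀ Q ∈ K, ∀ R ∈ K, (1 + tB + tC - tA) / 2 ≤ 1 - P 1 - P 2 →
      (1 + tA + tC - tB) / 2 ≤ Q 1 → (1 + tA + tB - tC) / 2 ≤ R 2 →
      -P 0 - Q 0 - R 0 ≤ 15 * νd := fun P hP Q hQ R hR a b c => by
    have := corner hc e2 hd0 hd h1 h2 h3 tA0 tB0 tC0 hP hQ hR a b c
    linarith
  -- points of the three edges
  have q1 : (![0, σ / 2, 0] : V) ∈ K := by
    have := hc h1 h2 (show 0 ≤ 1 - σ / 2 by linarith) (show 0 ≤ σ / 2 by linarith) (by ring)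
    convert this using 1
    funext i; fin_cases i <;> simp
  have q3 : (![0, 0, σ / 2] : V) ∈ K := by
    have := hc h1 h3 (show 0 ≤ 1 - σ / 2 by linarith) (show 0 ≤ σ / 2 by linarith) (by ring)
    convert this using 1
    funext i; fin_cases i <;> simp
  have q2 : (![0, 1 - σ / 2, σ / 2] : V) ∈ K := by
    have := hc h2 h3 (show 0 ≤ 1 - σ / 2 by linarith) (show 0 ≤ σ / 2 by linarith) (by ring)
    convert this using 1
    funext i; fin_cases i <;> simp
  have n1 : (Sd K (σ / 2) 0).Nonempty := ⟨_, _, q1, _, h1, by simp, by simp, rfl⟩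
  have m1 : (Sd K (-(σ / 2)) 0).Nonempty := ⟨_, _, h1, _, q1, by simp, by simp, rfl⟩
  have n2 : (Sd K (-(σ / 2)) (σ / 2)).Nonempty := ⟨_, _, q2, _, h2, by simp, by simp, rfl⟩
  have m2 : (Sd K (σ / 2) (-(σ / 2))).Nonempty := ⟨_, _, h2, _, q2, by simp, by simp, rfl⟩
  have n3 : (Sd K 0 (-(σ / 2))).Nonempty := ⟨_, _, h1, _, q3, by simp, by simp, rfl⟩
  have m3 : (Sd K 0 (σ / 2)).Nonempty := ⟨_, _, q3, _, h1, by simp, by simp, rfl⟩
  have two : ∀ p q p' q' : ℝ, ∀ a ∈ Sd K p q, ∀ b ∈ Sd K p' q', a + b ≤ 15 * ν := by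
    rintro p q p' q' _ ⟨x, hx, y, hy, -, -, rfl⟩ _ ⟨x', hx', y', hy', -, -, rfl⟩
    have := Hu x hx
    have := Hu x' hx'
    have := Hd y hy
    have := Hd y' hy'
    linarith
  obtain ⟨L1, L2, L3, hL, s1, s2, s3, t1, t2, t3⟩ := choice3 (N := 15 * ν) n1 n2 n3 m1 m2 m3
    (by
      rintro _ ⟨x, hx, y, hy, a1, a2, rfl⟩ _ ⟨x', hx', y', hy', b1, b2, rfl⟩
        _ ⟨x'', hx'', y'', hy'', c1, c2, rfl⟩
      have u1 := Cu x'' hx'' x hx x' hx' (by have := hA _ hy''; linarith)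
        (by have := hB _ hy; linarith) (by have := hC _ hy'; linarith)
      have u2 := Cd y hy y' hy' y'' hy'' (by have := hA _ hx; linarith)
        (by have := hB _ hx'; linarith) (by have := hC _ hx''; linarith)
      linarith)
    (two _ _ _ _) (two _ _ _ _) (two _ _ _ _)
    (by
      rintro _ ⟨x, hx, y, hy, a1, a2, rfl⟩ _ ⟨x', hx', y', hy', b1, b2, rfl⟩
        _ ⟨x'', hx'', y'', hy'', c1, c2, rfl⟩
      have := Hu x hx
      have := Hu x' hx'
      have := Hu x'' hx''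
      have := Hd y hy
      have := Hd y' hy'
      have := Hd y'' hy''
      linarith)
  have h0 : ∀ a ∈ Sd K 0 0, a ≤ 15 * ν := by
    rintro _ ⟨x, hx, y, hy, -, -, rfl⟩
    have := Hu x hx
    have := Hd y hy
    linarith
  refine ⟨bn σ L1 L2 L3, near_packs hσ tA0 tB0 tC0 hA hB hC (by positivity) hL h0 s1 s2 s3
    t1 t2 t3, ?_⟩
  rw [dt_bn, hL, abs_of_pos (by positivity), ← ENNReal.ofReal_mul (by positivity), hνK]
  apply ENNReal.ofReal_le_ofReal
  apply le_of_eq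
  field_simp

end Pool.Agent.H29.PK
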