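import Pool.Agent.H29.PK.Far

/-!
# Bodies with a projection between a triangle and a homothetic triangle
-/

set_option autoImplicit false

namespace Pool.Agent.H29.PK

open MeasureTheory Filter Topology
open scoped ENNReal
open Pool.Agent.H349R2.Tet
open Pool.Agent.TH219.DL

theorem Dt_ne_zero {a b c : W} (h : AffineIndependent ℝ ![a, b, c]) : Dt a b c ≠ 0 := by
  intro hD
  rw [affineIndependent_iff_not_collinear_set] at h
  apply h
  rw [collinear_iff_of_mem (p₀ := a) (by simp)]
  by_cases hba : b = a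
  · refine ⟨c - a, ?_⟩
    intro p hp
    simp only [Set.mem_insert_iff, Set.mem_singleton_iff] at hp
    rcases hp with rfl | rfl | rfl
    · exact ⟨0, by simp⟩
    · exact ⟨0, by simp [hba]⟩
    · exact ⟨1, by simp⟩
  · refine ⟨b - a, ?_⟩
    have hne : b 0 - a 0 ≠ 0 ∨ b 1 - a 1 ≠ 0 := by
      by_contra hcon
      push Not at hcon
      apply hba
      funext i
      fin_cases i
      · show b 0 = a 0
        linarith [hcon.1]
      · show b 1 = a 1
        linarith [hcon.2]
    have hD' : (b 0 - a 0) * (c 1 - a 1) = (b 1 - a 1) * (c 0 - a 0) := by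
      unfold Dt at hD; linarith
    have hc : ∃ r : ℝ, c 0 - a 0 = r * (b 0 - a 0) ∧ c 1 - a 1 = r * (b 1 - a 1) := by
      rcases hne with h0 | h1
      · refine ⟨(c 0 - a 0) / (b 0 - a 0), by field_simp, ?_⟩
        rw [div_mul_eq_mul_div, eq_div_iff h0]
        linarith
      · refine ⟨(c 1 - a 1) / (b 1 - a 1), ?_, by field_simp⟩
        rw [div_mul_eq_mul_div, eq_div_iff h1]
        linarith
    obtain ⟨r, hr0, hr1⟩ := hc
    intro p hp
    simp only [Set.mem_insert_iff, Set.mem_singleton_iff] at hp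
    rcases hp with rfl | rfl | rfl
    · exact ⟨0, by simp⟩
    · exact ⟨1, by simp⟩
    · refine ⟨r, ?_⟩
      funext i
      fin_cases i
      · show p 0 = r * (b 0 - a 0) + a 0
        linarith
      · show p 1 = r * (b 1 - a 1) + a 1
        linarith

/-- every linear map of space onto the plane is a coordinate projection after a change of
coordinates -/
theorem exists_equiv (f : V →ₗ[ℝ] W) {x y z : V} (h : Dt (f x) (f y) (f z) ≠ 0) :
    ∃ L : V ≃ₗ[ℝ] V, ∀ v, pr (L v) = f v := by
  set m := LinearMap.toMatrix' f with hm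
  have hf : ∀ v i, f v i = m i 0 * v 0 + m i 1 * v 1 + m i 2 * v 2 := by
    intro v i
    have : f v = m.mulVec v := by rw [hm, LinearMap.toMatrix'_mulVec]
    rw [this]
    simp [Matrix.mulVec, dotProduct, Fin.sum_univ_three]
  set n0 := m 0 1 * m 1 2 - m 0 2 * m 1 1 with hn0
  set n1 := m 0 2 * m 1 0 - m 0 0 * m 1 2 with hn1
  set n2 := m 0 0 * m 1 1 - m 0 1 * m 1 0 with hn2
  set F : V →ₗ[ℝ] V := Matrix.toLin' !![n0, n1, n2; m 0 0, m 0 1, m 0 2; m 1 0, m 1 1, m 1 2]
    with hF
  have hdet : LinearMap.det F = n0 ^ 2 + n1 ^ 2 + n2 ^ 2 := by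
    simp only [hF, LinearMap.det_toLin', Matrix.det_fin_three]
    simp
    rw [hn0, hn1, hn2]
    ring
  have hne : n0 ^ 2 + n1 ^ 2 + n2 ^ 2 ≠ 0 := by
    intro h0
    have e0 : n0 = 0 := by nlinarith [sq_nonneg n0, sq_nonneg n1, sq_nonneg n2]
    have e1 : n1 = 0 := by nlinarith [sq_nonneg n0, sq_nonneg n1, sq_nonneg n2]
    have e2 : n2 = 0 := by nlinarith [sq_nonneg n0, sq_nonneg n1, sq_nonneg n2]
    apply h
    have e : Dt (f x) (f y) (f z)
        = n0 * ((y 1 - x 1) * (z 2 - x 2) - (y 2 - x 2) * (z 1 - x 1))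
        + n1 * ((y 2 - x 2) * (z 0 - x 0) - (y 0 - x 0) * (z 2 - x 2))
        + n2 * ((y 0 - x 0) * (z 1 - x 1) - (y 1 - x 1) * (z 0 - x 0)) := by
      unfold Dt
      rw [hf x 0, hf x 1, hf y 0, hf y 1, hf z 0, hf z 1, hn0, hn1, hn2]
      ring
    rw [e, e0, e1, e2]
    ring
  have hdet0 : LinearMap.det F ≠ 0 := by rw [hdet]; exact hne
  refine ⟨LinearMap.equivOfDetNeZero _ hdet0, fun v => ?_⟩
  have hEF : (LinearMap.equivOfDetNeZero F hdet0) v = F v := rfl
  rw [hEF]
  funext i
  fin_cases i
  · show F v 1 = f v 0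
    rw [hf]
    simp [hF, Matrix.toLin'_apply, Matrix.mulVec, dotProduct, Fin.sum_univ_three]
  · show F v 2 = f v 1
    rw [hf]
    simp [hF, Matrix.toLin'_apply, Matrix.mulVec, dotProduct, Fin.sum_univ_three]

theorem half_convex (f : W → ℝ) (hf : ∀ (x y : W) (s t : ℝ), s + t = 1 →
    f (s • x + t • y) = s * f x + t * f y) (r : ℝ) : Convex ℝ {y : W | r ≤ f y} := by
  intro x hx y hy s t hs ht hst
  show r ≤ f (s • x + t • y)
  rw [hf x y s t hst]
  have hx' : r ≤ f x := hx
  have hy' : r ≤ f y := hy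
  have h1 := mul_le_mul_of_nonneg_left hx' hs
  have h2 := mul_le_mul_of_nonneg_left hy' ht
  have h3 : r = s * r + t * r := by rw [← add_mul, hst, one_mul]
  linarith

theorem shadow_low_pos {K : Set V} (hK : Body K) (f : V →ₗ[ℝ] W) {a b c p : W} {σ : ℝ}
    (hM : 0 < Dt a b c) (hσ : 0 < σ) (h1 : convexHull ℝ {a, b, c} ⊆ f '' K)
    (h2 : f '' K ⊆ (fun x => p + σ • x) '' convexHull ℝ {a, b, c}) :
    ENNReal.ofReal (4 / (15 * σ ^ 2)) ≤ dL K := by
  rcases lt_or_ge 2 σ with hσ2 | hσ2
  · refine le_trans (ENNReal.ofReal_le_ofReal ?_) (dL_low hK)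
    rw [div_le_iff₀ (by positivity)]
    nlinarith
  obtain ⟨hc, hv, hne⟩ := hK
  have ha' : a ∈ f '' K := h1 (subset_convexHull ℝ _ (by simp))
  have hb' : b ∈ f '' K := h1 (subset_convexHull ℝ _ (by simp))
  have hc' : c ∈ f '' K := h1 (subset_convexHull ℝ _ (by simp))
  obtain ⟨L, hL⟩ : ∃ L : V ≃ₗ[ℝ] V, ∀ v, pr (L v) = f v := by
    obtain ⟨x, -, hx⟩ := ha'
    obtain ⟨y, -, hy⟩ := hb'
    obtain ⟨z, -, hz⟩ := hc'
    exact exists_equiv f (x := x) (y := y) (z := z) (by rw [hx, hy, hz]; exact hM.ne')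
  have himg : (L '' K) = (fun x => L x + 0) '' K := by
    apply Set.image_congr
    intro x _
    simp
  have hcL : IsCompact (L '' K) := hc.image (LinearMap.continuous_of_finiteDimensional L.toLinearMap)
  have hvL : Convex ℝ (L '' K) := hv.linear_image L.toLinearMap
  have hneL : (interior (L '' K)).Nonempty := by
    rw [himg, pack_interior_image]
    exact hne.image _
  have hG : G (L '' K) 0 = f '' K := by
    rw [G_zero, ← Set.image_comp]
    apply Set.image_congr
    intro x _
    exact hL x
  -- the three half planes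
  set M := Dt a b c with hMd
  set α : ℝ := -Dt (p + σ • b) b c / M with hα
  set β : ℝ := -Dt a (p + σ • c) c / M with hβ
  set γ : ℝ := -Dt a b (p + σ • a) / M with hγ
  have aα : Dt (p + σ • b) b c = -(α * M) := by rw [hα]; field_simp
  have aβ : Dt a (p + σ • c) c = -(β * M) := by rw [hβ]; field_simp
  have aγ : Dt a b (p + σ • a) = -(γ * M) := by rw [hγ]; field_simp
  have hsum : σ = 1 + α + β + γ := by
    have e : Dt (p + σ • b) b c + Dt a (p + σ • c) c + Dt a b (p + σ • a) = (1 - σ) * M := by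
      rw [hMd]; unfold Dt
      simp only [Pi.add_apply, Pi.smul_apply, smul_eq_mul]
      ring
    rw [aα, aβ, aγ] at e
    have e2 : (σ - (1 + α + β + γ)) * M = 0 := by linarith
    rcases mul_eq_zero.1 e2 with h | h
    · linarith
    · exact absurd h hM.ne'
  have bA : ∀ X ∈ f '' K, -(α * M) ≤ Dt X b c := by
    intro X hX
    obtain ⟨y, hy, rfl⟩ := h2 hX
    have hcv := half_convex (fun y => Dt (p + σ • y) b c) (fun x y s t hst => by
      unfold Dt
      simp only [Pi.add_apply, Pi.smul_apply, smul_eq_mul]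
      have ht : t = 1 - s := by linarith
      subst ht
      ring) (-(α * M))
    refine convexHull_min ?_ hcv hy
    intro z hz
    simp only [Set.mem_insert_iff, Set.mem_singleton_iff] at hz
    show -(α * M) ≤ Dt (p + σ • z) b c
    rw [← aα]
    rcases hz with rfl | rfl | rfl
    · have e : Dt (p + σ • z) b c = Dt (p + σ • b) b c + σ * M := by
        rw [hMd]; unfold Dt
        simp only [Pi.add_apply, Pi.smul_apply, smul_eq_mul]
        ring
      rw [e]
      have := mul_pos hσ hM
      linarith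
    · exact le_rfl
    · apply le_of_eq
      unfold Dt
      simp only [Pi.add_apply, Pi.smul_apply, smul_eq_mul]
      ring
  have bB : ∀ X ∈ f '' K, -(β * M) ≤ Dt a X c := by
    intro X hX
    obtain ⟨y, hy, rfl⟩ := h2 hX
    have hcv := half_convex (fun y => Dt a (p + σ • y) c) (fun x y s t hst => by
      unfold Dt
      simp only [Pi.add_apply, Pi.smul_apply, smul_eq_mul]
      have ht : t = 1 - s := by linarith
      subst ht
      ring) (-(β * M))
    refine convexHull_min ?_ hcv hy
    intro z hz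
    simp only [Set.mem_insert_iff, Set.mem_singleton_iff] at hz
    show -(β * M) ≤ Dt a (p + σ • z) c
    rw [← aβ]
    rcases hz with rfl | rfl | rfl
    · apply le_of_eq
      unfold Dt
      simp only [Pi.add_apply, Pi.smul_apply, smul_eq_mul]
      ring
    · have e : Dt a (p + σ • z) c = Dt a (p + σ • c) c + σ * M := by
        rw [hMd]; unfold Dt
        simp only [Pi.add_apply, Pi.smul_apply, smul_eq_mul]
        ring
      rw [e]
      have := mul_pos hσ hM
      linarith
    · exact le_rfl
  have bC : ∀ X ∈ f '' K, -(γ * M) ≤ Dt a b X := by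
    intro X hX
    obtain ⟨y, hy, rfl⟩ := h2 hX
    have hcv := half_convex (fun y => Dt a b (p + σ • y)) (fun x y s t hst => by
      unfold Dt
      simp only [Pi.add_apply, Pi.smul_apply, smul_eq_mul]
      have ht : t = 1 - s := by linarith
      subst ht
      ring) (-(γ * M))
    refine convexHull_min ?_ hcv hy
    intro z hz
    simp only [Set.mem_insert_iff, Set.mem_singleton_iff] at hz
    show -(γ * M) ≤ Dt a b (p + σ • z)
    rw [← aγ]
    rcases hz with rfl | rfl | rfl
    · exact le_rfl
    · apply le_of_eq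
      unfold Dt
      simp only [Pi.add_apply, Pi.smul_apply, smul_eq_mul]
      ring
    · have e : Dt a b (p + σ • z) = Dt a b (p + σ • a) + σ * M := by
        rw [hMd]; unfold Dt
        simp only [Pi.add_apply, Pi.smul_apply, smul_eq_mul]
        ring
      rw [e]
      have := mul_pos hσ hM
      linarith
  have α0 : 0 ≤ α := by
    have h := bA b hb'
    have e : Dt b b c = 0 := by unfold Dt; ring
    rw [e] at h
    by_contra hcon
    push Not at hcon
    nlinarith
  have β0 : 0 ≤ β := by
    have h := bB a ha'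
    have e : Dt a a c = 0 := by unfold Dt; ring
    rw [e] at h
    by_contra hcon
    push Not at hcon
    nlinarith
  have γ0 : 0 ≤ γ := by
    have h := bC a ha'
    have e : Dt a b a = 0 := by unfold Dt; ring
    rw [e] at h
    by_contra hcon
    push Not at hcon
    nlinarith
  rw [← hG] at ha' hb' hc' bA bB bC
  have h := near_gen hcL hvL hneL ha' hb' hc' hM hsum hσ2 α0 β0 γ0 bA bB bC
  rw [himg] at h
  exact to_dL hc (transfer L 0 h)

/-- a convex body with a projection between a triangle and a homothetic triangle -/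
theorem shadow_low {K : Set V} (hK : Body K) (f : V →ₗ[ℝ] W) {a b c p : W} {σ : ℝ}
    (habc : AffineIndependent ℝ ![a, b, c]) (hσ : 0 < σ) (h1 : convexHull ℝ {a, b, c} ⊆ f '' K)
    (h2 : f '' K ⊆ (fun x => p + σ • x) '' convexHull ℝ {a, b, c}) :
    ENNReal.ofReal (4 / (15 * σ ^ 2)) ≤ dL K := by
  rcases lt_or_gt_of_ne (Dt_ne_zero habc) with h | h
  · have e : ({a, b, c} : Set W) = {a, c, b} := by
      rw [Set.pair_comm b c]
    rw [e] at h1 h2
    refine shadow_low_pos hK f (a := a) (b := c) (c := b) (p := p) ?_ hσ h1 h2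
    have : Dt a c b = -Dt a b c := by unfold Dt; ring
    rw [this]; linarith
  · exact shadow_low_pos hK f h hσ h1 h2

/-- a convex body with a triangular projection -/
theorem shadow_tri {K : Set V} (hK : Body K) (f : V →ₗ[ℝ] W) {a b c : W}
    (habc : AffineIndependent ℝ ![a, b, c]) (h : f '' K = convexHull ℝ {a, b, c}) :
    ENNReal.ofReal (4 / 15) ≤ dL K := by
  have := shadow_low hK f (p := 0) habc one_pos h.ge (by rw [h]; intro x hx; exact ⟨x, hx, by simp⟩)
  simpa using this

end Pool.Agent.H29.PK
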