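import Pool.Graph.R_seed8.TH219.DL.Bridge

/-!
# Tetrahedra with a horizontal face inside a convex body
-/

set_option autoImplicit false

namespace Pool.Agent.H29.PK

open MeasureTheory
open scoped ENNReal
open Pool.Agent.H349R2.Tet
open Pool.Agent.TH219.DL

/-- closed standard simplex -/
def Cl : Set V := {z | 0 ≤ z 0 ∧ 0 ≤ z 1 ∧ 0 ≤ z 2 ∧ z 0 + z 1 + z 2 ≤ 1}

/-- open standard simplex -/
def Op : Set V := {z | 0 < z 0 ∧ 0 < z 1 ∧ 0 < z 2 ∧ z 0 + z 1 + z 2 < 1}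

theorem Cl_convex : Convex ℝ Cl := by
  rintro x ⟨h0, h1, h2, h3⟩ y ⟨g0, g1, g2, g3⟩ a b ha hb hab
  refine ⟨?_, ?_, ?_, ?_⟩
  · simp only [Pi.add_apply, Pi.smul_apply, smul_eq_mul]; positivity
  · simp only [Pi.add_apply, Pi.smul_apply, smul_eq_mul]; positivity
  · simp only [Pi.add_apply, Pi.smul_apply, smul_eq_mul]; positivity
  · simp only [Pi.add_apply, Pi.smul_apply, smul_eq_mul]
    have e1 := mul_le_mul_of_nonneg_left h3 ha
    have e2 := mul_le_mul_of_nonneg_left g3 hb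
    linarith

theorem Cl_compact : IsCompact Cl := by
  have hcl : IsClosed Cl := by
    have c0 : Continuous fun z : V => z 0 := continuous_apply 0
    have c1 : Continuous fun z : V => z 1 := continuous_apply 1
    have c2 : Continuous fun z : V => z 2 := continuous_apply 2
    exact (isClosed_le continuous_const c0).inter ((isClosed_le continuous_const c1).inter
      ((isClosed_le continuous_const c2).inter (isClosed_le ((c0.add c1).add c2)
        continuous_const)))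
  have hsub : Cl ⊆ Set.Icc (0 : V) 1 := by
    rintro z ⟨h0, h1, h2, h3⟩
    refine ⟨fun i => ?_, fun i => ?_⟩
    · fin_cases i <;> simpa
    · fin_cases i <;> simp <;> linarith
  exact isCompact_Icc.of_isClosed_subset hcl hsub

theorem vol_Op : ENNReal.ofReal (1 / 6) ≤ volume Op := by
  have h1 : interior Cl ⊆ Op := by
    intro z hz
    obtain ⟨a, ha, ha'⟩ := interior_push hz ![-1, 0, 0]
    obtain ⟨b, hb, hb'⟩ := interior_push hz ![0, -1, 0]
    obtain ⟨c, hc, hc'⟩ := interior_push hz ![0, 0, -1]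
    obtain ⟨d, hd, hd'⟩ := interior_push hz ![1, 1, 1]
    obtain ⟨a0, a1, a2, a3⟩ := ha'
    obtain ⟨b0, b1, b2, b3⟩ := hb'
    obtain ⟨c0, c1, c2, c3⟩ := hc'
    obtain ⟨d0, d1, d2, d3⟩ := hd'
    simp at a0 a1 a2 a3 b0 b1 b2 b3 c0 c1 c2 c3 d0 d1 d2 d3
    exact ⟨by linarith, by linarith, by linarith, by linarith⟩
  have h2 : ENNReal.ofReal (1 / 6) ≤ volume Cl := by
    have hx0 : (0 : Fin 2 → ℝ) ∈ G Cl 1 := by
      refine ⟨0, ?_, ?_⟩
      · refine ⟨?_, ?_, ?_, ?_⟩ <;> simp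
      · refine ⟨?_, ?_, ?_, ?_⟩ <;> simp
    have h3 := cone Cl_compact Cl_convex one_pos hx0
    have h4 : ENNReal.ofReal (1 / 2) ≤ volume (G Cl 0) := by
      refine vol_Dl.trans (measure_mono ?_)
      rintro x ⟨g0, g1, g2⟩
      refine ⟨0, ⟨?_, ?_, ?_, ?_⟩, ⟨?_, ?_, ?_, ?_⟩⟩ <;> simp <;> linarith
    calc ENNReal.ofReal (1 / 6) = ENNReal.ofReal (1 / 3) * ENNReal.ofReal (1 / 2) := by
          rw [← ENNReal.ofReal_mul (by norm_num)]; norm_num
      _ ≤ ENNReal.ofReal (1 / 3) * volume (G Cl 0) := by gcongr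
      _ ≤ volume Cl := h3
  calc ENNReal.ofReal (1 / 6) ≤ volume Cl := h2
    _ = volume (interior Cl) := (vol_int Cl_convex).symm
    _ ≤ volume Op := measure_mono h1

/-- the open tetrahedron with vertices `p, q, r, s` -/
def tet (p q r s : V) : Set V := (fun z : V => (fun i => z 0 * p i + z 1 * q i + z 2 * r i
  + (1 - z 0 - z 1 - z 2) * s i)) '' Op

/-- six times the signed volume of the tetrahedron `p, q, r, s` -/
def Dv (p q r s : V) : ℝ :=
  (p 0 - s 0) * ((q 1 - s 1) * (r 2 - s 2) - (q 2 - s 2) * (r 1 - s 1))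
  - (q 0 - s 0) * ((p 1 - s 1) * (r 2 - s 2) - (p 2 - s 2) * (r 1 - s 1))
  + (r 0 - s 0) * ((p 1 - s 1) * (q 2 - s 2) - (p 2 - s 2) * (q 1 - s 1))

theorem vol_tet (p q r s : V) : ENNReal.ofReal (|Dv p q r s| / 6) ≤ volume (tet p q r s) := by
  let L : V →ₗ[ℝ] V := Matrix.toLin' !![p 0 - s 0, q 0 - s 0, r 0 - s 0;
    p 1 - s 1, q 1 - s 1, r 1 - s 1; p 2 - s 2, q 2 - s 2, r 2 - s 2]
  have hdet : LinearMap.det L = Dv p q r s := by
    simp only [L, LinearMap.det_toLin', Matrix.det_fin_three, Dv]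
    simp
    ring
  have himg : tet p q r s = (fun x => s + x) '' (L '' Op) := by
    rw [← Set.image_comp]
    unfold tet
    apply Set.image_congr
    intro z _
    funext i
    simp only [L, Function.comp, Pi.add_apply, Matrix.toLin'_apply, Matrix.mulVec, dotProduct,
      Fin.sum_univ_three]
    fin_cases i <;> simp <;> ring
  rw [himg, Set.image_add_left, measure_preimage_add, Measure.addHaar_image_linearMap, hdet,
    div_eq_mul_one_div, ENNReal.ofReal_mul (abs_nonneg _)]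
  gcongr
  exact vol_Op

theorem tet_sub {K : Set V} (hK : Convex ℝ K) {p q r s : V} (hp : p ∈ K) (hq : q ∈ K)
    (hr : r ∈ K) (hs : s ∈ K) : tet p q r s ⊆ K := by
  rintro _ ⟨z, ⟨h0, h1, h2, h3⟩, rfl⟩
  have h := hK.sum_mem (t := Finset.univ) (w := ![z 0, z 1, z 2, 1 - z 0 - z 1 - z 2])
    (z := ![p, q, r, s])
    (by intro i _; fin_cases i <;> simp <;> linarith)
    (by simp [Fin.sum_univ_four])
    (by intro i _; fin_cases i <;> simp <;> assumption)
  have e : (fun i => z 0 * p i + z 1 * q i + z 2 * r i + (1 - z 0 - z 1 - z 2) * s i)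
      = ∑ i : Fin 4, (![z 0, z 1, z 2, 1 - z 0 - z 1 - z 2] i) • (![p, q, r, s] i) := by
    funext i
    simp [Fin.sum_univ_four]
  show (fun i => z 0 * p i + z 1 * q i + z 2 * r i + (1 - z 0 - z 1 - z 2) * s i) ∈ K
  rw [e]
  exact h

/-- a point of a convex body above a horizontal triangle of the body -/
theorem one_pt {K : Set V} (hK : Convex ℝ K) {e : ℝ} {ν : ℝ} (hν0 : 0 ≤ ν)
    (hν : volume (K ∩ {x | 0 < e * x 0}) ≤ ENNReal.ofReal ν)
    {z1 z2 z3 P : V} (h1 : z1 ∈ K) (h2 : z2 ∈ K) (h3 : z3 ∈ K) (hP : P ∈ K)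
    (g1 : z1 0 = 0) (g2 : z2 0 = 0) (g3 : z3 0 = 0) (hD : |Dv P z1 z2 z3| = |e * P 0|) :
    e * P 0 ≤ 6 * ν := by
  rcases le_or_gt (e * P 0) 0 with h | h
  · linarith
  · have hv := vol_tet P z1 z2 z3
    have hs : tet P z1 z2 z3 ⊆ K ∩ {x | 0 < e * x 0} := by
      intro x hx
      refine ⟨tet_sub hK hP h1 h2 h3 hx, ?_⟩
      obtain ⟨z, ⟨h0, -, -, -⟩, rfl⟩ := hx
      show 0 < e * (z 0 * P 0 + z 1 * z1 0 + z 2 * z2 0 + (1 - z 0 - z 1 - z 2) * z3 0)
      rw [g1, g2, g3]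
      have : e * (z 0 * P 0 + z 1 * 0 + z 2 * 0 + (1 - z 0 - z 1 - z 2) * 0)
          = z 0 * (e * P 0) := by ring
      rw [this]; positivity
    have h4 := (hv.trans (measure_mono hs)).trans hν
    rw [ENNReal.ofReal_le_ofReal_iff hν0, hD, abs_of_pos h] at h4
    linarith

/-- two points of a convex body above a horizontal triangle of the body -/
theorem two_pt {K : Set V} (hK : Convex ℝ K) {e : ℝ} {ν : ℝ} (hν0 : 0 ≤ ν)
    (hν : volume (K ∩ {x | 0 < e * x 0}) ≤ ENNReal.ofReal ν)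
    {zq z2 z3 P Q : V} (h1 : zq ∈ K) (h2 : z2 ∈ K) (h3 : z3 ∈ K) (hP : P ∈ K) (hQ : Q ∈ K)
    (g1 : zq 0 = 0) (g2 : z2 0 = 0) (g3 : z3 0 = 0)
    {c0 c1 c2 : ℝ} (l1 : c0 + c1 * zq 1 + c2 * zq 2 = 1) (l2 : c0 + c1 * z2 1 + c2 * z2 2 = 0)
    (l3 : c0 + c1 * z3 1 + c2 * z3 2 = 0)
    (hD1 : |Dv P zq z2 z3| = |e * P 0|)
    (hD2 : |Dv P Q z2 z3| = |(c0 + c1 * P 1 + c2 * P 2) * (e * Q 0)
      - (c0 + c1 * Q 1 + c2 * Q 2) * (e * P 0)|)
    (hP0 : 0 ≤ e * P 0) (hQ0 : 0 ≤ e * Q 0) :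
    (1 - (c0 + c1 * Q 1 + c2 * Q 2)) * (e * P 0) + (c0 + c1 * P 1 + c2 * P 2) * (e * Q 0)
      ≤ 6 * ν := by
  have hI := one_pt hK hν0 hν h1 h2 h3 hP g1 g2 g3 hD1
  set lP := c0 + c1 * P 1 + c2 * P 2 with hlP
  set lQ := c0 + c1 * Q 1 + c2 * Q 2 with hlQ
  rcases le_or_gt (lP * (e * Q 0) - lQ * (e * P 0)) 0 with h | h
  · linarith
  · rw [abs_of_pos h] at hD2
    have hv2 := vol_tet P Q z2 z3
    rw [hD2] at hv2
    have hpos : 0 < e * P 0 ∨ 0 < e * Q 0 := by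
      by_contra hcon
      push Not at hcon
      have e1 : e * P 0 = 0 := le_antisymm hcon.1 hP0
      have e2 : e * Q 0 = 0 := le_antisymm hcon.2 hQ0
      rw [e1, e2] at h
      simp at h
    have hs2 : tet P Q z2 z3 ⊆ (K ∩ {x | 0 < e * x 0}) \
        {x | 0 < (c0 + c1 * x 1 + c2 * x 2) * (e * P 0) - lP * (e * x 0)} := by
      intro x hx
      refine ⟨⟨tet_sub hK hP hQ h2 h3 hx, ?_⟩, ?_⟩
      · obtain ⟨z, ⟨h0, h1', -, -⟩, rfl⟩ := hx
        show 0 < e * (z 0 * P 0 + z 1 * Q 0 + z 2 * z2 0 + (1 - z 0 - z 1 - z 2) * z3 0)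
        rw [g2, g3]
        have : e * (z 0 * P 0 + z 1 * Q 0 + z 2 * 0 + (1 - z 0 - z 1 - z 2) * 0)
            = z 0 * (e * P 0) + z 1 * (e * Q 0) := by ring
        rw [this]
        rcases hpos with hp | hp
        · have := mul_pos h0 hp
          have := mul_nonneg h1'.le hQ0
          linarith
        · have := mul_nonneg h0.le hP0
          have := mul_pos h1' hp
          linarith
      · obtain ⟨z, ⟨h0, h1', -, -⟩, rfl⟩ := hx
        show ¬ (0 < (c0 + c1 * (z 0 * P 1 + z 1 * Q 1 + z 2 * z2 1 + (1 - z 0 - z 1 - z 2) * z3 1)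
          + c2 * (z 0 * P 2 + z 1 * Q 2 + z 2 * z2 2 + (1 - z 0 - z 1 - z 2) * z3 2)) * (e * P 0)
          - lP * (e * (z 0 * P 0 + z 1 * Q 0 + z 2 * z2 0 + (1 - z 0 - z 1 - z 2) * z3 0)))
        rw [g2, g3]
        have : (c0 + c1 * (z 0 * P 1 + z 1 * Q 1 + z 2 * z2 1 + (1 - z 0 - z 1 - z 2) * z3 1)
          + c2 * (z 0 * P 2 + z 1 * Q 2 + z 2 * z2 2 + (1 - z 0 - z 1 - z 2) * z3 2)) * (e * P 0)
          - lP * (e * (z 0 * P 0 + z 1 * Q 0 + z 2 * 0 + (1 - z 0 - z 1 - z 2) * 0))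
          = - (z 1 * (lP * (e * Q 0) - lQ * (e * P 0))) := by
          rw [hlP, hlQ]
          linear_combination (z 2 * (e * P 0)) * l2 + ((1 - z 0 - z 1 - z 2) * (e * P 0)) * l3
        rw [this, not_lt]
        have := mul_pos h1' h
        linarith
    have hm : MeasurableSet
        {x : V | 0 < (c0 + c1 * x 1 + c2 * x 2) * (e * P 0) - lP * (e * x 0)} :=
      (isOpen_lt continuous_const (by fun_prop)).measurableSet
    have hsplit := measure_inter_add_sdiff (μ := volume) (K ∩ {x | 0 < e * x 0}) hm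
    rcases hP0.eq_or_lt with hp | hp
    · have h4 := ((hv2.trans (measure_mono hs2)).trans
        (measure_mono Set.sdiff_subset)).trans hν
      rw [ENNReal.ofReal_le_ofReal_iff hν0] at h4
      rw [← hp] at h4 ⊢
      linarith
    · have hv1 := vol_tet P zq z2 z3
      rw [hD1, abs_of_pos hp] at hv1
      have hs1 : tet P zq z2 z3 ⊆ (K ∩ {x | 0 < e * x 0}) ∩
          {x | 0 < (c0 + c1 * x 1 + c2 * x 2) * (e * P 0) - lP * (e * x 0)} := by
        intro x hx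
        refine ⟨⟨tet_sub hK hP h1 h2 h3 hx, ?_⟩, ?_⟩
        · obtain ⟨z, ⟨h0, h1', -, -⟩, rfl⟩ := hx
          show 0 < e * (z 0 * P 0 + z 1 * zq 0 + z 2 * z2 0 + (1 - z 0 - z 1 - z 2) * z3 0)
          rw [g1, g2, g3]
          have : e * (z 0 * P 0 + z 1 * 0 + z 2 * 0 + (1 - z 0 - z 1 - z 2) * 0)
              = z 0 * (e * P 0) := by ring
          rw [this]; positivity
        · obtain ⟨z, ⟨h0, h1', -, -⟩, rfl⟩ := hx
          show 0 < (c0 + c1 * (z 0 * P 1 + z 1 * zq 1 + z 2 * z2 1 + (1 - z 0 - z 1 - z 2) * z3 1)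
            + c2 * (z 0 * P 2 + z 1 * zq 2 + z 2 * z2 2 + (1 - z 0 - z 1 - z 2) * z3 2)) * (e * P 0)
            - lP * (e * (z 0 * P 0 + z 1 * zq 0 + z 2 * z2 0 + (1 - z 0 - z 1 - z 2) * z3 0))
          rw [g1, g2, g3]
          have : (c0 + c1 * (z 0 * P 1 + z 1 * zq 1 + z 2 * z2 1 + (1 - z 0 - z 1 - z 2) * z3 1)
            + c2 * (z 0 * P 2 + z 1 * zq 2 + z 2 * z2 2 + (1 - z 0 - z 1 - z 2) * z3 2)) * (e * P 0)
            - lP * (e * (z 0 * P 0 + z 1 * 0 + z 2 * 0 + (1 - z 0 - z 1 - z 2) * 0))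
            = z 1 * (e * P 0) := by
            rw [hlP]
            linear_combination (z 1 * (e * P 0)) * l1 + (z 2 * (e * P 0)) * l2
              + ((1 - z 0 - z 1 - z 2) * (e * P 0)) * l3
          rw [this]
          positivity
      have h4 : ENNReal.ofReal (e * P 0 / 6 + (lP * (e * Q 0) - lQ * (e * P 0)) / 6)
          ≤ ENNReal.ofReal ν := by
        rw [ENNReal.ofReal_add (by positivity) (by positivity)]
        refine le_trans ?_ hν
        rw [← hsplit]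
        exact add_le_add (hv1.trans (measure_mono hs1)) (hv2.trans (measure_mono hs2))
      rw [ENNReal.ofReal_le_ofReal_iff hν0] at h4
      linarith

end Pool.Agent.H29.PK
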